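import Pool.Agent.H66.ML.NonLac

/-!
A closed subset of the circle that is invariant under multiplication by two multiplicatively
independent integers and accumulates at zero is the whole circle.
-/

namespace Pool.Agent.H66.ML

private theorem Acc_norm_le (r : ℝ) : ‖(r : UnitAddCircle)‖ ≤ |r| := by
  rw [UnitAddCircle.norm_eq]
  have h := round_le r 0
  rwa [Int.cast_zero, sub_zero] at h

private theorem Acc_rep (y : UnitAddCircle) : ∃ t : ℝ, (t : UnitAddCircle) = y ∧ |t| = ‖y‖ := by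
  obtain ⟨x, rfl⟩ := QuotientAddGroup.mk_surjective y
  refine ⟨x - round x, ?_, ?_⟩
  · rw [AddCircle.coe_sub]
    have h1 : ((round x : ℝ) : UnitAddCircle) = 0 :=
      (AddCircle.coe_eq_zero_iff 1).2 ⟨round x, by simp⟩
    rw [h1, sub_zero]
  · exact (UnitAddCircle.norm_eq (x := x)).symm

private theorem Acc_smul {a b : ℕ} {Y : Set UnitAddCircle} (hYa : ∀ y ∈ Y, a • y ∈ Y)
    (hYb : ∀ y ∈ Y, b • y ∈ Y) (i j : ℕ) : ∀ y ∈ Y, (a ^ i * b ^ j) • y ∈ Y := by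
  have h1 : ∀ i : ℕ, ∀ y ∈ Y, (a ^ i) • y ∈ Y := by
    intro i
    induction i with
    | zero => intro y hy; rwa [pow_zero, one_smul]
    | succ i ih =>
      intro y hy
      rw [pow_succ, mul_smul]
      exact ih _ (hYa y hy)
  have h2 : ∀ j : ℕ, ∀ y ∈ Y, (b ^ j) • y ∈ Y := by
    intro j
    induction j with
    | zero => intro y hy; rwa [pow_zero, one_smul]
    | succ j ih =>
      intro y hy
      rw [pow_succ, mul_smul]
      exact ih _ (hYb y hy)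
  intro y hy
  rw [mul_smul]
  exact h1 i _ (h2 j y hy)

/-- the approximation for one nonzero `t`. -/
private theorem Acc_real {a b : ℕ} (ha : 2 ≤ a) (hb : 2 ≤ b) {R₀ ε : ℝ} (hε : 0 < ε)
    (hR₀ : ∀ R : ℝ, R₀ ≤ R → ∃ i j : ℕ, R ≤ i * Real.log a + j * Real.log b ∧
      i * Real.log a + j * Real.log b ≤ R + Real.log (1 + ε / 4)) {t c : ℝ} (ht : 0 < t)
    (htR : t ≤ Real.exp (-R₀)) (hc1 : 1 ≤ c) (hc2 : c ≤ 2) :
    ∃ i j : ℕ, |((a ^ i * b ^ j : ℕ) : ℝ) * t - c| ≤ ε / 2 := by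
  have hct : 0 < c / t := by positivity
  obtain ⟨i, j, h1, h2⟩ := hR₀ (Real.log (c / t)) (by
    rw [Real.log_div (by positivity) ht.ne']
    have h3 : Real.log t ≤ -R₀ := by
      rw [Real.log_le_iff_le_exp ht]
      exact htR
    have h4 : 0 ≤ Real.log c := Real.log_nonneg hc1
    linarith)
  have ha0 : (0 : ℝ) < a := by exact_mod_cast (by omega : 0 < a)
  have hb0 : (0 : ℝ) < b := by exact_mod_cast (by omega : 0 < b)
  have hs : (i : ℝ) * Real.log a + j * Real.log b = Real.log ((a : ℝ) ^ i * (b : ℝ) ^ j) := by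
    rw [Real.log_mul (by positivity) (by positivity), Real.log_pow, Real.log_pow]
  have hs0 : (0 : ℝ) < (a : ℝ) ^ i * (b : ℝ) ^ j := by positivity
  rw [hs] at h1 h2
  have h5 : c / t ≤ (a : ℝ) ^ i * (b : ℝ) ^ j := (Real.log_le_log_iff hct hs0).1 h1
  have h6 : (a : ℝ) ^ i * (b : ℝ) ^ j ≤ c / t * (1 + ε / 4) := by
    rw [← Real.log_mul hct.ne' (by positivity)] at h2
    exact (Real.log_le_log_iff hs0 (by positivity)).1 h2
  refine ⟨i, j, ?_⟩
  push_cast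
  have h7 : c ≤ (a : ℝ) ^ i * (b : ℝ) ^ j * t := by rwa [div_le_iff₀ ht] at h5
  have h8 : (a : ℝ) ^ i * (b : ℝ) ^ j * t ≤ c * (1 + ε / 4) := by
    have h9 := mul_le_mul_of_nonneg_right h6 ht.le
    have h10 : c / t * (1 + ε / 4) * t = c * (1 + ε / 4) := by
      field_simp
    rwa [h10] at h9
  rw [abs_le]
  constructor
  · linarith
  · nlinarith

theorem eq_univ_of_acc {a b : ℕ} (h : MInd a b) {Y : Set UnitAddCircle} (hY : IsClosed Y)
    (hYa : ∀ y ∈ Y, a • y ∈ Y) (hYb : ∀ y ∈ Y, b • y ∈ Y)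
    (h0 : (0 : UnitAddCircle) ∈ closure (Y \ {0})) : Y = Set.univ := by
  refine Set.eq_univ_of_forall fun x => ?_
  rw [← hY.closure_eq, Metric.mem_closure_iff]
  intro ε hε
  obtain ⟨R₀, hR₀⟩ := nonlac h (δ := Real.log (1 + ε / 4)) (Real.log_pos (by linarith))
  obtain ⟨ha, hb, -⟩ := h
  obtain ⟨y, hy, hdy⟩ := Metric.mem_closure_iff.1 h0 (Real.exp (-R₀)) (Real.exp_pos _)
  rw [dist_comm, dist_zero_right] at hdy
  obtain ⟨t, rfl, htn⟩ := Acc_rep y
  rw [← htn] at hdy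
  obtain ⟨z, rfl⟩ := QuotientAddGroup.mk_surjective x
  have ht : t ≠ 0 := by
    intro h1
    exact hy.2 (by rw [h1]; rfl)
  have key : ∀ (c : ℝ) (i j : ℕ), ((c : ℝ) : UnitAddCircle) = ((z : ℝ) : UnitAddCircle) →
      |((a ^ i * b ^ j : ℕ) : ℝ) * t - c| ≤ ε / 2 →
      ∃ b ∈ Y, dist (QuotientAddGroup.mk z : UnitAddCircle) b < ε := by
    intro c i j hc hij
    refine ⟨(a ^ i * b ^ j) • (t : UnitAddCircle), Acc_smul hYa hYb i j _ hy.1, ?_⟩
    have h1 : (QuotientAddGroup.mk z : UnitAddCircle) = (c : UnitAddCircle) := hc.symm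
    rw [h1, dist_comm, dist_eq_norm]
    have h2 : (a ^ i * b ^ j) • (t : UnitAddCircle) - (c : UnitAddCircle) =
        ((((a ^ i * b ^ j : ℕ) : ℝ) * t - c : ℝ) : UnitAddCircle) := by
      rw [AddCircle.coe_sub, ← nsmul_eq_mul, AddCircle.coe_nsmul]
    rw [h2]
    exact lt_of_le_of_lt (Acc_norm_le _) (lt_of_le_of_lt hij (by linarith))
  have hper : ∀ m : ℤ, (((z - ⌊z⌋) + m : ℝ) : UnitAddCircle) = ((z : ℝ) : UnitAddCircle) := by
    intro m
    have h1 : (z - ⌊z⌋) + (m : ℝ) = z + ((m - ⌊z⌋ : ℤ) : ℝ) := by push_cast; ring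
    rw [h1, AddCircle.coe_add]
    have h2 : (((m - ⌊z⌋ : ℤ) : ℝ) : UnitAddCircle) = 0 :=
      (AddCircle.coe_eq_zero_iff 1).2 ⟨m - ⌊z⌋, by simp⟩
    rw [h2, add_zero]
  have hf0 : 0 ≤ z - ⌊z⌋ := sub_nonneg.2 (Int.floor_le z)
  have hf1 : z - ⌊z⌋ < 1 := by linarith [Int.lt_floor_add_one z]
  rcases lt_or_gt_of_ne ht with h1 | h1
  · rw [abs_of_neg h1] at hdy
    obtain ⟨i, j, hij⟩ := Acc_real ha hb hε hR₀ (t := -t) (c := -((z - ⌊z⌋) + (-2 : ℤ)))
      (by linarith) hdy.le (by push_cast; linarith) (by push_cast; linarith)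
    refine key _ i j (hper (-2)) ?_
    rw [← abs_neg] at hij
    refine le_trans (le_of_eq ?_) hij
    congr 1
    ring
  · rw [abs_of_pos h1] at hdy
    obtain ⟨i, j, hij⟩ := Acc_real ha hb hε hR₀ (t := t) (c := ((z - ⌊z⌋) + (1 : ℤ)))
      h1 hdy.le (by push_cast; linarith) (by push_cast; linarith)
    exact key _ i j (hper 1) hij

end Pool.Agent.H66.ML
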