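import Pool.Agent.H66.ML.Blocks

/-!
The number `bval js` in the form `± (s + g) / m` with an integer `m` prime to six and a root `s` of
`X ^ 2 - X - 1` modulo `m`.
-/

namespace Pool.Agent.H66.ML

open Function Matrix

/-- The matrix of a partial quotient one. -/
def M1 : Matrix (Fin 2) (Fin 2) ℤ := !![1, 1; 1, 0]

/-- The matrix of two partial quotients two. -/
def M22 : Matrix (Fin 2) (Fin 2) ℤ := !![5, 2; 2, 1]

/-- The matrix of a list of blocks. -/
def mat : List ℕ → Matrix (Fin 2) (Fin 2) ℤ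
  | [] => 1
  | j :: js => M1 ^ j * (M22 * mat js)

theorem m1_mul (A : Matrix (Fin 2) (Fin 2) ℤ) :
    M1 * A = !![A 0 0 + A 1 0, A 0 1 + A 1 1; A 0 0, A 0 1] := by
  ext i j
  fin_cases i <;> fin_cases j <;> simp [M1, Matrix.mul_apply, Fin.sum_univ_two]

theorem m22_mul (A : Matrix (Fin 2) (Fin 2) ℤ) :
    M22 * A = !![5 * A 0 0 + 2 * A 1 0, 5 * A 0 1 + 2 * A 1 1;
      2 * A 0 0 + A 1 0, 2 * A 0 1 + A 1 1] := by
  ext i j
  fin_cases i <;> fin_cases j <;> simp [M22, Matrix.mul_apply, Fin.sum_univ_two]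

/-- `x` is the value of the matrix `A`, whose entries are nonnegative. -/
structure Val (A : Matrix (Fin 2) (Fin 2) ℤ) (x : ℝ) : Prop where
  h00 : 1 ≤ A 0 0
  h01 : 0 ≤ A 0 1
  h10 : 0 ≤ A 1 0
  h11 : 0 ≤ A 1 1
  hx : x * ((A 0 0 : ℝ) + A 0 1 * g) = (A 1 0 : ℝ) + A 1 1 * g

theorem Val.m1 {A : Matrix (Fin 2) (Fin 2) ℤ} {x : ℝ} (h : Val A x) (hx0 : 0 ≤ x) :
    Val (M1 * A) (one x) := by
  obtain ⟨h00, h01, h10, h11, hx⟩ := h
  rw [m1_mul]
  refine ⟨by simp; linarith, by simp; linarith, by simp; linarith, by simpa using h01, ?_⟩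
  simp only [Matrix.of_apply, Matrix.cons_val', Matrix.cons_val_zero, Matrix.cons_val_one,
    Matrix.cons_val_fin_one]
  push_cast
  unfold one
  rw [div_mul_eq_mul_div, div_eq_iff (by linarith)]
  linarith

theorem Val.m22 {A : Matrix (Fin 2) (Fin 2) ℤ} {x : ℝ} (h : Val A x) (hx0 : 0 ≤ x) :
    Val (M22 * A) (two (two x)) := by
  obtain ⟨h00, h01, h10, h11, hx⟩ := h
  rw [m22_mul]
  refine ⟨by simp; linarith, by simp; linarith, by simp; linarith, by simp; linarith, ?_⟩
  simp only [Matrix.of_apply, Matrix.cons_val', Matrix.cons_val_zero, Matrix.cons_val_one,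
    Matrix.cons_val_fin_one]
  push_cast
  have e : two (two x) = (2 + x) / (5 + 2 * x) := by
    unfold two
    have : (2 + x) ≠ 0 := by linarith
    field_simp
    ring
  rw [e, div_mul_eq_mul_div, div_eq_iff (by linarith)]
  linear_combination (1 : ℝ) * hx

theorem bval_nonneg (js : List ℕ) : 0 ≤ bval js ∧ bval js ≤ 1 := by
  have := (fut_bval (L := 0) (js := js) (fun _ _ => Nat.zero_le _)).mem
  constructor <;> linarith

theorem val_mat (js : List ℕ) : Val (mat js) (bval js) := by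
  induction js with
  | nil => refine ⟨?_, ?_, ?_, ?_, ?_⟩ <;> simp [mat, bval]
  | cons j js ih =>
    have h0 := bval_nonneg js
    have h1 := ih.m22 h0.1
    have h2 : 0 ≤ two (two (bval js)) ∧ two (two (bval js)) ≤ 1 := by
      have h3 := two_mem h0
      have h4 := two_mem (x := two (bval js)) ⟨by linarith, by linarith⟩
      constructor <;> linarith
    show Val (M1 ^ j * (M22 * mat js)) (one^[j] (two (two (bval js))))
    induction j with
    | zero => simpa using h1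
    | succ j ihj =>
      rw [iterate_succ_apply', pow_succ', Matrix.mul_assoc]
      exact ihj.m1 (iter_mem j h2).1

theorem det_mat (js : List ℕ) : (mat js).det = 1 ∨ (mat js).det = -1 := by
  induction js with
  | nil => left; simp [mat]
  | cons j js ih =>
    have h1 : M1.det = -1 := by simp [M1, Matrix.det_fin_two]
    have h2 : M22.det = 1 := by simp [M22, Matrix.det_fin_two]
    rw [mat, Matrix.det_mul, Matrix.det_mul, Matrix.det_pow, h1, h2, one_mul]
    rcases neg_one_pow_eq_or ℤ j with h | h <;> rcases ih with h' | h' <;> rw [h, h'] <;> simp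

/-- The norm. -/
def nn (js : List ℕ) : ℤ :=
  (mat js) 0 0 ^ 2 - (mat js) 0 0 * (mat js) 0 1 - (mat js) 0 1 ^ 2

/-- The root. -/
def ss (js : List ℕ) : ℤ :=
  (mat js).det * ((mat js) 1 0 * (mat js) 0 0 - (mat js) 1 0 * (mat js) 0 1 -
    (mat js) 1 1 * (mat js) 0 1)

theorem bval_eq (js : List ℕ) :
    bval js * (nn js : ℝ) = ((mat js).det : ℝ) * ((ss js : ℝ) + g) := by
  obtain ⟨h00, h01, h10, h11, hx⟩ := val_mat js
  have hd := det_mat js
  have hdet := Matrix.det_fin_two (mat js)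
  have hg := lt_g
  have hg2 := g_sq
  have hden : ((mat js 0 0 : ℤ) : ℝ) + (mat js 0 1 : ℤ) * g ≠ 0 := by
    have h1 : (1 : ℝ) ≤ (mat js 0 0 : ℤ) := by exact_mod_cast h00
    have h2 : (0 : ℝ) ≤ (mat js 0 1 : ℤ) := by exact_mod_cast h01
    positivity
  have hdd : ((mat js).det : ℝ) * ((mat js).det : ℝ) = 1 := by
    rcases hd with h | h <;> rw [h] <;> norm_num
  have hdet' : ((mat js).det : ℝ) =
      (mat js 0 0 : ℤ) * (mat js 1 1 : ℤ) - (mat js 0 1 : ℤ) * (mat js 1 0 : ℤ) := by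
    rw [hdet]; push_cast; ring
  apply mul_right_cancel₀ hden
  rw [mul_right_comm, hx]
  unfold nn ss
  simp only [Int.cast_sub, Int.cast_mul, Int.cast_pow]
  set q : ℝ := ((mat js 0 0 : ℤ) : ℝ)
  set q' : ℝ := ((mat js 0 1 : ℤ) : ℝ)
  set p : ℝ := ((mat js 1 0 : ℤ) : ℝ)
  set p' : ℝ := ((mat js 1 1 : ℤ) : ℝ)
  set e : ℝ := ((mat js).det : ℝ)
  have : e * (e * (p * q - p * q' - p' * q') + g) = (p * q - p * q' - p' * q') + e * g := by
    rw [mul_add, ← mul_assoc, hdd, one_mul]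
  rw [this, hdet']
  linear_combination (-(q * p' - q' * p) * q') * hg2

theorem dvd_nn {js : List ℕ} {m s₀ : ℤ} (hs : m ∣ s₀ ^ 2 - s₀ - 1)
    (h : m ∣ (mat js) 0 0 + (s₀ - 1) * (mat js) 0 1) : m ∣ nn js := by
  obtain ⟨c, hc⟩ := hs
  obtain ⟨k, hk⟩ := h
  have hq : (mat js) 0 0 = m * k - (s₀ - 1) * (mat js) 0 1 := by linarith
  unfold nn
  refine ⟨k * (mat js 0 0) - (s₀ - 1) * (mat js 0 1) * k - k * (mat js 0 1) +
    c * (mat js 0 1) ^ 2, ?_⟩
  set q := (mat js) 0 0
  set q' := (mat js) 0 1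
  linear_combination (q - (s₀ - 1) * q' - q') * hk + q' ^ 2 * hc

theorem dvd_ss {js : List ℕ} {m s₀ : ℤ} (hs : m ∣ s₀ ^ 2 - s₀ - 1)
    (h : m ∣ (mat js) 0 0 + (s₀ - 1) * (mat js) 0 1) : m ∣ ss js - s₀ := by
  obtain ⟨c, hc⟩ := hs
  obtain ⟨k, hk⟩ := h
  have hdet := Matrix.det_fin_two (mat js)
  have hd : (mat js).det ^ 2 = 1 := by
    rcases det_mat js with h | h <;> rw [h] <;> norm_num
  unfold ss
  set q := (mat js) 0 0
  set q' := (mat js) 0 1
  set p := (mat js) 1 0
  set p' := (mat js) 1 1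
  set e := (mat js).det
  -- `p q - p q' - p' q' ≡ e s₀`
  have key : m ∣ (p * q - p * q' - p' * q') - e * s₀ := by
    rw [hdet]
    refine ⟨k * p - s₀ * p' * k + p' * q' * c * 1, ?_⟩
    linear_combination (p - s₀ * p') * hk + (p' * q') * hc
  obtain ⟨t, ht⟩ := key
  refine ⟨e * t, ?_⟩
  linear_combination e * ht + s₀ * hd

theorem root_ss (js : List ℕ) : nn js ∣ ss js ^ 2 - ss js - 1 := by
  have hdet := Matrix.det_fin_two (mat js)
  have hd : (mat js).det ^ 2 = 1 := by
    rcases det_mat js with h | h <;> rw [h] <;> norm_num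
  unfold ss nn
  set q := (mat js) 0 0
  set q' := (mat js) 0 1
  set p := (mat js) 1 0
  set p' := (mat js) 1 1
  set e := (mat js).det
  refine ⟨p ^ 2 - p * p' - p' ^ 2, ?_⟩
  have h1 : (e * (p * q - p * q' - p' * q')) ^ 2 = (p * q - p * q' - p' * q') ^ 2 := by
    rw [mul_pow, hd, one_mul]
  rw [h1]
  have h2 : (1 : ℤ) = e ^ 2 := hd.symm
  rw [h2, hdet]
  ring

theorem nn_not_two (js : List ℕ) : ¬ (2 : ℤ) ∣ nn js := by
  intro h
  have hdet := Matrix.det_fin_two (mat js)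
  have h1 : ((nn js : ℤ) : ZMod 2) = 0 := (ZMod.intCast_zmod_eq_zero_iff_dvd _ 2).2 h
  have h2 : (((mat js).det : ℤ) : ZMod 2) = 1 := by
    rcases det_mat js with h | h <;> rw [h] <;> decide
  rw [hdet] at h2
  unfold nn at h1
  push_cast at h1 h2
  revert h1 h2
  generalize (((mat js) 0 0 : ℤ) : ZMod 2) = q
  generalize (((mat js) 0 1 : ℤ) : ZMod 2) = q'
  generalize (((mat js) 1 0 : ℤ) : ZMod 2) = p
  generalize (((mat js) 1 1 : ℤ) : ZMod 2) = p'
  revert q q' p p'
  decide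

theorem nn_not_three (js : List ℕ) : ¬ (3 : ℤ) ∣ nn js := by
  intro h
  have hdet := Matrix.det_fin_two (mat js)
  have h1 : ((nn js : ℤ) : ZMod 3) = 0 := (ZMod.intCast_zmod_eq_zero_iff_dvd _ 3).2 h
  have h2 : (((mat js).det : ℤ) : ZMod 3) ≠ 0 := by
    rcases det_mat js with h | h <;> rw [h] <;> decide
  rw [hdet] at h2
  unfold nn at h1
  push_cast at h1 h2
  revert h1 h2
  generalize (((mat js) 0 0 : ℤ) : ZMod 3) = q
  generalize (((mat js) 0 1 : ℤ) : ZMod 3) = q'
  generalize (((mat js) 1 0 : ℤ) : ZMod 3) = p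
  generalize (((mat js) 1 1 : ℤ) : ZMod 3) = p'
  revert q q' p p'
  decide

theorem nn_ne_zero (js : List ℕ) : nn js ≠ 0 := fun h => nn_not_two js (h ▸ dvd_zero _)

/-- Rows of the matrix of a nonempty list. -/
theorem rows (js : List ℕ) (hne : js ≠ []) :
    2 * (mat js) 0 1 ≤ (mat js) 0 0 ∧ 2 * (mat js) 1 1 ≤ (mat js) 1 0 := by
  have h1 : ∀ (j : ℕ) (A : Matrix (Fin 2) (Fin 2) ℤ), 2 * A 0 1 ≤ A 0 0 → 2 * A 1 1 ≤ A 1 0 →
      2 * (M1 ^ j * A) 0 1 ≤ (M1 ^ j * A) 0 0 ∧ 2 * (M1 ^ j * A) 1 1 ≤ (M1 ^ j * A) 1 0 := by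
    intro j
    induction j with
    | zero => intro A hA hB; simpa using ⟨hA, hB⟩
    | succ j ih =>
      intro A hA hB
      obtain ⟨h2, h3⟩ := ih A hA hB
      rw [pow_succ', Matrix.mul_assoc, m1_mul]
      simp only [Matrix.of_apply, Matrix.cons_val', Matrix.cons_val_zero, Matrix.cons_val_one,
        Matrix.cons_val_fin_one]
      constructor <;> linarith
  induction js with
  | nil => exact absurd rfl hne
  | cons j js ih =>
    rw [mat]
    obtain ⟨g00, g01, g10, g11, -⟩ := val_mat js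
    apply h1
    · rw [m22_mul]
      simp only [Matrix.of_apply, Matrix.cons_val', Matrix.cons_val_zero, Matrix.cons_val_one,
        Matrix.cons_val_fin_one]
      rcases eq_or_ne js [] with rfl | hjs
      · simp [mat]
      · obtain ⟨h2, h3⟩ := ih hjs
        linarith
    · rw [m22_mul]
      simp only [Matrix.of_apply, Matrix.cons_val', Matrix.cons_val_zero, Matrix.cons_val_one,
        Matrix.cons_val_fin_one]
      rcases eq_or_ne js [] with rfl | hjs
      · simp [mat]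
      · obtain ⟨h2, h3⟩ := ih hjs
        linarith

theorem length_le (js : List ℕ) : (2 : ℤ) ^ js.length ≤ (mat js) 0 0 := by
  have h1 : ∀ (j : ℕ) (A : Matrix (Fin 2) (Fin 2) ℤ), 0 ≤ A 0 0 → 0 ≤ A 1 0 →
      A 0 0 ≤ (M1 ^ j * A) 0 0 ∧ 0 ≤ (M1 ^ j * A) 1 0 := by
    intro j
    induction j with
    | zero => intro A hA hB; simpa using hB
    | succ j ih =>
      intro A hA hB
      obtain ⟨h2, h3⟩ := ih A hA hB
      rw [pow_succ', Matrix.mul_assoc, m1_mul]
      simp only [Matrix.of_apply, Matrix.cons_val', Matrix.cons_val_zero, Matrix.cons_val_one,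
        Matrix.cons_val_fin_one]
      constructor <;> linarith
  induction js with
  | nil => simp [mat]
  | cons j js ih =>
    obtain ⟨g00, g01, g10, g11, -⟩ := val_mat js
    rw [mat, List.length_cons, pow_succ]
    refine le_trans ?_ (h1 j _ ?_ ?_).1
    · rw [m22_mul]
      simp only [Matrix.of_apply, Matrix.cons_val', Matrix.cons_val_zero, Matrix.cons_val_one,
        Matrix.cons_val_fin_one]
      linarith
    · rw [m22_mul]
      simp only [Matrix.of_apply, Matrix.cons_val', Matrix.cons_val_zero, Matrix.cons_val_one,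
        Matrix.cons_val_fin_one]
      linarith
    · rw [m22_mul]
      simp only [Matrix.of_apply, Matrix.cons_val', Matrix.cons_val_zero, Matrix.cons_val_one,
        Matrix.cons_val_fin_one]
      linarith

theorem nn_large {js : List ℕ} (hne : js ≠ []) : (4 : ℤ) ^ js.length ≤ 4 * nn js := by
  obtain ⟨h1, -⟩ := rows js hne
  obtain ⟨g00, g01, g10, g11, -⟩ := val_mat js
  have h2 := length_le js
  have h3 : (4 : ℤ) ^ js.length = (2 ^ js.length) ^ 2 := by
    rw [← pow_mul, mul_comm, pow_mul]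
    norm_num
  rw [h3]
  have h4 : ((2 : ℤ) ^ js.length) ^ 2 ≤ (mat js 0 0) ^ 2 :=
    pow_le_pow_left₀ (by positivity) h2 2
  unfold nn
  nlinarith

end Pool.Agent.H66.ML
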