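import Mathlib

/-!
Definitions for the metric theorem on the mixed Littlewood problem with a random sequence of
multipliers.
-/

namespace Pool.Agent.H66.ML

/-- The point `θ` of the circle is `ε`-well approximable: `q ‖q θ‖ < ε` for some `q ≥ 1`. -/
def Good (ε : ℝ) (θ : UnitAddCircle) : Prop := ∃ q : ℕ, 1 ≤ q ∧ (q : ℝ) * ‖q • θ‖ < ε

theorem isOpen_good (ε : ℝ) : IsOpen {θ : UnitAddCircle | Good ε θ} := by
  have : {θ : UnitAddCircle | Good ε θ} =
      ⋃ q : ℕ, ⋃ _ : 1 ≤ q, {θ : UnitAddCircle | (q : ℝ) * ‖q • θ‖ < ε} := by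
    ext θ
    simp [Good]
  rw [this]
  refine isOpen_iUnion fun q => isOpen_iUnion fun _ => ?_
  exact isOpen_lt (continuous_const.mul (continuous_norm.comp (continuous_const_smul q)))
    continuous_const

theorem good_of_finite_order {ε : ℝ} (hε : 0 < ε) {θ : UnitAddCircle} (h : IsOfFinAddOrder θ) :
    Good ε θ := by
  obtain ⟨n, hn, h0⟩ := isOfFinAddOrder_iff_nsmul_eq_zero.1 h
  exact ⟨n, hn, by rw [h0]; simpa using hε⟩

/-- Two integers are multiplicatively independent. -/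
def MInd (a b : ℕ) : Prop := 2 ≤ a ∧ 2 ≤ b ∧ ∀ i j : ℕ, 0 < i → 0 < j → a ^ i ≠ b ^ j

theorem mInd_two_three : MInd 2 3 := by
  refine ⟨le_rfl, by norm_num, fun i j hi _ h => ?_⟩
  have h2 : 2 ∣ 3 ^ j := by
    rw [← h]
    exact dvd_pow_self 2 hi.ne'
  have := Nat.prime_two.dvd_of_dvd_pow h2
  omega

end Pool.Agent.H66.ML
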