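import Pool.Agent.H66.ML.Form

/-!
Continued fractions made of blocks `1, …, 1, 2, 2` with at least `L` ones, followed by ones only:
all approximations satisfy `q |q x - p| ≥ 1 / (3 + 2 g ^ L)`, where `g = (√5 - 1) / 2`.
-/

namespace Pool.Agent.H66.ML

open Function

/-- The golden section `(√5 - 1) / 2`. -/
noncomputable def g : ℝ := (Real.sqrt 5 - 1) / 2

theorem g_sq : g ^ 2 = 1 - g := by
  have h : Real.sqrt 5 ^ 2 = 5 := Real.sq_sqrt (by norm_num)
  unfold g
  nlinarith

theorem g_lt : g < 62 / 100 := by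
  have h : Real.sqrt 5 < 224 / 100 := by
    rw [Real.sqrt_lt' (by norm_num)]
    norm_num
  unfold g
  linarith

theorem lt_g : 61 / 100 < g := by
  have h : 222 / 100 < Real.sqrt 5 := by
    rw [Real.lt_sqrt (by norm_num)]
    norm_num
  unfold g
  linarith

/-- A partial quotient one. -/
noncomputable def one (x : ℝ) : ℝ := 1 / (1 + x)

/-- A partial quotient two. -/
noncomputable def two (x : ℝ) : ℝ := 1 / (2 + x)

theorem one_g : one g = g := by
  have h := g_sq
  have h2 := lt_g
  unfold one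
  rw [div_eq_iff (by linarith)]
  nlinarith

theorem two_g : two g = g ^ 2 := by
  have h := g_sq
  have h2 := lt_g
  unfold two
  rw [div_eq_iff (by linarith)]
  nlinarith [h, mul_comm g g]

theorem one_mem {x : ℝ} (h : 0 ≤ x ∧ x ≤ 1) : 1 / 2 ≤ one x ∧ one x ≤ 1 := by
  unfold one
  constructor
  · rw [div_le_div_iff₀ (by norm_num) (by linarith)]
    linarith
  · rw [div_le_one (by linarith)]
    linarith

theorem two_mem {x : ℝ} (h : 0 ≤ x ∧ x ≤ 1) : 1 / 3 ≤ two x ∧ two x ≤ 1 / 2 := by
  unfold two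
  constructor
  · rw [div_le_div_iff₀ (by norm_num) (by linarith)]
    linarith
  · rw [div_le_div_iff₀ (by linarith) (by norm_num)]
    linarith

theorem iter_mem (k : ℕ) {x : ℝ} (h : 0 ≤ x ∧ x ≤ 1) : 0 ≤ one^[k] x ∧ one^[k] x ≤ 1 := by
  induction k generalizing x with
  | zero => exact h
  | succ k ih =>
    rw [iterate_succ_apply]
    have := one_mem h
    exact ih ⟨by linarith, this.2⟩

theorem iter_third (k : ℕ) {x : ℝ} (h : 1 / 3 ≤ x ∧ x ≤ 1) :
    1 / 3 ≤ one^[k] x ∧ one^[k] x ≤ 1 := by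
  induction k generalizing x with
  | zero => exact h
  | succ k ih =>
    rw [iterate_succ_apply]
    have := one_mem ⟨by linarith, h.2⟩
    exact ih ⟨by linarith, this.2⟩

/-- `one` contracts the distance to `g` by the factor `g`. -/
theorem abs_one_sub {x : ℝ} (h : 0 ≤ x) : |one x - g| ≤ g * |x - g| := by
  have hg := lt_g
  have e : one x - g = -((x - g) * (g / (1 + x))) := by
    have h1 := g_sq
    unfold one
    field_simp
    nlinarith
  rw [e, abs_neg, abs_mul, mul_comm]
  apply mul_le_mul_of_nonneg_right _ (abs_nonneg _)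
  rw [abs_of_nonneg (by positivity), div_le_iff₀ (by linarith)]
  nlinarith

theorem abs_iter_sub (k : ℕ) {x : ℝ} (h : 0 ≤ x ∧ x ≤ 1) : |one^[k] x - g| ≤ g ^ k := by
  have hg := lt_g
  induction k with
  | zero =>
    rw [iterate_zero_apply, pow_zero, abs_le]
    have := g_lt
    constructor <;> linarith [h.1, h.2]
  | succ k ih =>
    rw [iterate_succ_apply', pow_succ']
    exact (abs_one_sub (iter_mem k h).1).trans (mul_le_mul_of_nonneg_left ih (by linarith))

theorem abs_two_sub {x : ℝ} (h : 0 ≤ x) : |two x - g ^ 2| ≤ |x - g| := by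
  have hg := lt_g
  rw [← two_g]
  have e : two x - two g = -((x - g) * (1 / ((2 + x) * (2 + g)))) := by
    unfold two
    field_simp
    ring
  rw [e, abs_neg, abs_mul]
  have h2 : |1 / ((2 + x) * (2 + g))| ≤ 1 := by
    rw [abs_of_nonneg (by positivity), div_le_one (by positivity)]
    nlinarith
  calc |x - g| * |1 / ((2 + x) * (2 + g))| ≤ |x - g| * 1 :=
        mul_le_mul_of_nonneg_left h2 (abs_nonneg _)
    _ = |x - g| := mul_one _

/-- Pasts at block boundaries. -/
inductive Past (L : ℕ) : ℝ → Prop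
  | zero : Past L 0
  | blk {j : ℕ} {y : ℝ} : L ≤ j → Past L y → Past L (two (two (one^[j] y)))

/-- Futures at block boundaries. -/
inductive Fut (L : ℕ) : ℝ → Prop
  | gold : Fut L g
  | blk {j : ℕ} {x : ℝ} : L ≤ j → Fut L x → Fut L (one^[j] (two (two x)))

theorem Past.mem {L : ℕ} {y : ℝ} (h : Past L y) : 0 ≤ y ∧ y ≤ 1 := by
  induction h with
  | zero => norm_num
  | blk _ _ ih =>
    rename_i j y _ _
    have h1 := two_mem (iter_mem j ih)
    have h2 := two_mem (x := two (one^[j] y)) ⟨by linarith, by linarith⟩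
    constructor <;> linarith

theorem Fut.mem {L : ℕ} {x : ℝ} (h : Fut L x) : 1 / 3 ≤ x ∧ x ≤ 1 := by
  induction h with
  | gold =>
    have := lt_g
    have := g_lt
    constructor <;> linarith
  | blk _ _ ih =>
    rename_i j x _ _
    have h1 := two_mem (x := x) ⟨by linarith, ih.2⟩
    have h2 := two_mem (x := two x) ⟨by linarith, by linarith⟩
    exact iter_third j ⟨by linarith, by linarith⟩

theorem Fut.near {L : ℕ} {x : ℝ} (h : Fut L x) : |x - g| ≤ g ^ L := by
  have hg := lt_g
  have hg2 := g_lt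
  cases h with
  | gold => simpa using pow_nonneg (by linarith : (0 : ℝ) ≤ g) L
  | blk hj hx =>
    rename_i j x
    have h0 := hx.mem
    have h1 := two_mem (x := x) ⟨by linarith, h0.2⟩
    have h2 := two_mem (x := two x) ⟨by linarith, by linarith⟩
    refine (abs_iter_sub j ⟨by linarith, by linarith⟩).trans ?_
    exact pow_le_pow_of_le_one (by linarith) (by linarith) hj

/-- The closed set of pairs (future, past). -/
def RR (L : ℕ) : Set (ℝ × ℝ) := {z |
  (∃ (k : ℕ) (y : ℝ), Past L y ∧ z.1 = g ∧ z.2 = one^[k] y) ∨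
  (∃ (i k : ℕ) (x y : ℝ), L ≤ i + k ∧ Fut L x ∧ Past L y ∧ z.1 = one^[i] (two (two x)) ∧
    z.2 = one^[k] y) ∨
  (∃ (j : ℕ) (x y : ℝ), L ≤ j ∧ Fut L x ∧ Past L y ∧ z.1 = two x ∧ z.2 = two (one^[j] y))}

theorem rr_of_fut {L : ℕ} {x y : ℝ} (hx : Fut L x) (hy : Past L y) : (x, y) ∈ RR L := by
  cases hx with
  | gold => exact Or.inl ⟨0, y, hy, rfl, rfl⟩
  | blk hj hx =>
    rename_i j x
    exact Or.inr (Or.inl ⟨j, 0, x, y, by omega, hx, hy, rfl, rfl⟩)

theorem rr_closed (L : ℕ) : ∀ z ∈ RR L, 1 / 3 ≤ z.1 ∧ z.1 ≤ 1 ∧ 0 ≤ z.2 ∧ z.2 ≤ 1 ∧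
    1 / z.1 + z.2 ≤ 3 + 2 * g ^ L ∧
      ∃ (a : ℕ) (x' : ℝ), (a = 1 ∨ a = 2) ∧ z.1 = 1 / (a + x') ∧ (x', 1 / (a + z.2)) ∈ RR L := by
  have hg := lt_g
  have hg2 := g_lt
  have hgL : 0 ≤ g ^ L := pow_nonneg (by linarith) L
  rintro ⟨u, v⟩ (⟨k, y, hy, rfl, rfl⟩ | ⟨i, k, x, y, hik, hx, hy, rfl, rfl⟩ |
    ⟨j, x, y, hj, hx, hy, rfl, rfl⟩)
  · have h1 := iter_mem k hy.mem
    refine ⟨by linarith, by linarith, h1.1, h1.2, ?_, 1, g, Or.inl rfl, ?_, ?_⟩
    · have : 1 / g = 1 + g := by
        have := g_sq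
        rw [div_eq_iff (by linarith)]
        nlinarith
      simp only
      rw [this]
      linarith
    · have := one_g
      unfold one at this
      push_cast
      exact this.symm
    · refine Or.inl ⟨k + 1, y, hy, rfl, ?_⟩
      rw [iterate_succ_apply']
      simp [one]
  · have hx0 := hx.mem
    have h1 := two_mem (x := x) ⟨by linarith, hx0.2⟩
    have h2 := two_mem (x := two x) ⟨by linarith, by linarith⟩
    have h3 := iter_third i (x := two (two x)) ⟨h2.1, by linarith⟩
    have h4 := iter_mem k hy.mem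
    refine ⟨h3.1, h3.2, h4.1, h4.2, ?_⟩
    cases i with
    | succ i =>
      have h5 := iter_third i (x := two (two x)) ⟨h2.1, by linarith⟩
      refine ⟨?_, 1, one^[i] (two (two x)), Or.inl rfl, ?_, ?_⟩
      · rw [iterate_succ_apply']
        simp only [one, one_div_one_div] at h4 ⊢
        linarith
      · rw [iterate_succ_apply']
        simp [one]
      · refine Or.inr (Or.inl ⟨i, k + 1, x, y, by omega, hx, hy, rfl, ?_⟩)
        have e : one^[k + 1] y = one (one^[k] y) := iterate_succ_apply' _ _ _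
        rw [e]
        simp only [one, Nat.cast_one]
    | zero =>
      rw [iterate_zero_apply]
      refine ⟨?_, 2, two x, Or.inr rfl, ?_, ?_⟩
      · have e1 : 1 / two (two x) = 2 + two x := by
          rw [two, one_div_one_div]
        have e2 := abs_le.1 ((abs_two_sub (x := x) (by linarith)).trans hx.near)
        have e3 := abs_le.1 (abs_iter_sub k hy.mem)
        have e4 : g ^ k ≤ g ^ L := pow_le_pow_of_le_one (by linarith) (by linarith) (by omega)
        have e5 := g_sq
        simp only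
        rw [e1]
        linarith [e2.2, e3.2]
      · simp [two]
      · refine Or.inr (Or.inr ⟨k, x, y, by omega, hx, hy, rfl, ?_⟩)
        simp [two]
  · have hx0 := hx.mem
    have h1 := two_mem (x := x) ⟨by linarith, hx0.2⟩
    have h2 := iter_mem j hy.mem
    have h3 := two_mem h2
    refine ⟨h1.1, by simp only; linarith, by simp only; linarith, by simp only; linarith, ?_, 2, x,
      Or.inr rfl, by simp [two], ?_⟩
    · have e1 : 1 / two x = 2 + x := by rw [two, one_div_one_div]
      have e2 := abs_le.1 hx.near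
      have e3 := abs_le.1 (abs_iter_sub j hy.mem)
      have e3' := abs_le.1 ((abs_two_sub h2.1).trans (abs_iter_sub j hy.mem))
      have e4 : g ^ j ≤ g ^ L := pow_le_pow_of_le_one (by linarith) (by linarith) (by omega)
      have e5 := g_sq
      simp only
      rw [e1]
      linarith [e2.2, e3'.2]
    · have : 1 / (((2 : ℕ) : ℝ) + two (one^[j] y)) = two (two (one^[j] y)) := by simp [two]
      simp only
      rw [this]
      exact rr_of_fut hx (Past.blk hj hy)

/-- The value of a list of blocks `1, …, 1, 2, 2`, followed by the golden tail. -/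
noncomputable def bval : List ℕ → ℝ
  | [] => g
  | j :: js => one^[j] (two (two (bval js)))

theorem fut_bval {L : ℕ} {js : List ℕ} (h : ∀ j ∈ js, L ≤ j) : Fut L (bval js) := by
  induction js with
  | nil => exact Fut.gold
  | cons j js ih =>
    exact Fut.blk (h j (by simp)) (ih fun i hi => h i (by simp [hi]))

theorem bad_blocks {L : ℕ} {js : List ℕ} (h : ∀ j ∈ js, L ≤ j) (q : ℕ) (hq : 1 ≤ q) (p : ℤ) :
    1 / (3 + 2 * g ^ L) ≤ (q : ℝ) * |(q : ℝ) * bval js - p| := by
  have hg := lt_g
  have hgL : 0 ≤ g ^ L := pow_nonneg (by linarith) L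
  exact bad_of_closed (RR L) _ (by linarith) (rr_closed L) (rr_of_fut (fut_bval h) Past.zero) q hq p

end Pool.Agent.H66.ML
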