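import Pool.Agent.H66.ML.Grp

/-!
For every number of levels `N` and every `c < 1 / 3` there are a sequence of multipliers and a real
number `α` for which `(q / t_n) ‖q α‖ ≥ c` for all `n ≤ N` and all multiples `q` of `t_n`.
-/

namespace Pool.Agent.H66.ML

open Function Matrix

theorem exists_next (L : ℕ) (js : List ℕ) : ∃ js' : List ℕ, (∀ j ∈ js', L ≤ j) ∧
    (nn js).natAbs ∣ (nn js').natAbs ∧ (nn js).natAbs < (nn js').natAbs ∧
      ((nn js).natAbs : ℤ) ∣ ss js' - ss js := by
  set m := (nn js).natAbs with hm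
  have hm0 : 0 < m := Int.natAbs_pos.2 (nn_ne_zero js)
  have hdm : ∀ x : ℤ, (m : ℤ) ∣ x ↔ nn js ∣ x := fun x => Int.natAbs_dvd
  have h2 : ¬ (2 : ℤ) ∣ m := by
    rw [hm, Int.dvd_natAbs]
    exact nn_not_two js
  have h3 : ¬ (3 : ℤ) ∣ m := by
    rw [hm, Int.dvd_natAbs]
    exact nn_not_three js
  obtain ⟨js', hjs, hlen, hdvd⟩ := exists_block hm0 h2 h3 (ss js - 1) L (m + 1)
  have hroot : (m : ℤ) ∣ ss js ^ 2 - ss js - 1 := (hdm _).2 (root_ss js)
  have hn := dvd_nn hroot hdvd
  refine ⟨js', hjs, ?_, ?_, dvd_ss hroot hdvd⟩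
  · have : (m : ℤ) ∣ ((nn js').natAbs : ℤ) := Int.dvd_natAbs.2 hn
    exact_mod_cast this
  · have hne : js' ≠ [] := by
      rintro rfl
      simp at hlen
    have h4 := nn_large hne
    have h5 : (4 : ℤ) ^ (m + 1) ≤ 4 ^ js'.length := pow_le_pow_right₀ (by norm_num) hlen
    have h6 : (m : ℤ) < 4 ^ m := by
      have : m < 4 ^ m := Nat.lt_pow_self (by norm_num)
      exact_mod_cast this
    have h7 : (m : ℤ) < nn js' := by
      rw [pow_succ] at h5
      linarith
    omega

/-- The chain of lists of blocks. -/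
noncomputable def chain (L : ℕ) : ℕ → List ℕ
  | 0 => []
  | k + 1 => (exists_next L (chain L k)).choose

theorem chain_spec (L k : ℕ) : (nn (chain L k)).natAbs ∣ (nn (chain L (k + 1))).natAbs ∧
    (nn (chain L k)).natAbs < (nn (chain L (k + 1))).natAbs ∧
      ((nn (chain L k)).natAbs : ℤ) ∣ ss (chain L (k + 1)) - ss (chain L k) :=
  (exists_next L (chain L k)).choose_spec.2

theorem chain_mem (L k : ℕ) : ∀ j ∈ chain L k, L ≤ j := by
  cases k with
  | zero => simp [chain]
  | succ k => exact (exists_next L (chain L k)).choose_spec.1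

/-- The moduli. -/
noncomputable def mm (L k : ℕ) : ℕ := (nn (chain L k)).natAbs

theorem mm_pos (L k : ℕ) : 0 < mm L k := Int.natAbs_pos.2 (nn_ne_zero _)

theorem mm_dvd {L i j : ℕ} (h : i ≤ j) : mm L i ∣ mm L j := by
  induction j, h using Nat.le_induction with
  | base => exact dvd_rfl
  | succ j _ ih => exact ih.trans (chain_spec L j).1

theorem ss_dvd {L i j : ℕ} (h : i ≤ j) : (mm L i : ℤ) ∣ ss (chain L j) - ss (chain L i) := by
  induction j, h using Nat.le_induction with
  | base => simp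
  | succ j hj ih =>
    have h1 : (mm L i : ℤ) ∣ (mm L j : ℤ) := by exact_mod_cast mm_dvd hj
    have h2 := dvd_add (h1.trans (chain_spec L j).2.2) ih
    have e : ss (chain L (j + 1)) - ss (chain L j) + (ss (chain L j) - ss (chain L i)) =
        ss (chain L (j + 1)) - ss (chain L i) := by ring
    rwa [e] at h2

/-- The world of a list of blocks. -/
theorem world_eq (js : List ℕ) : ∃ η : ℤ, (η = 1 ∨ η = -1) ∧
    ((ss js : ℝ) + g) / ((nn js).natAbs : ℝ) = η * bval js := by
  have h := bval_eq js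
  have hn : (nn js : ℝ) ≠ 0 := by exact_mod_cast nn_ne_zero js
  have hN : ((nn js).natAbs : ℝ) ≠ 0 := by
    exact_mod_cast (Int.natAbs_pos.2 (nn_ne_zero js)).ne'
  have hd : ∃ e : ℤ, (e = 1 ∨ e = -1) ∧ (nn js : ℝ) = e * ((nn js).natAbs : ℝ) := by
    rcases Int.natAbs_eq (nn js) with h | h
    · refine ⟨1, Or.inl rfl, ?_⟩
      rw [Int.cast_one, one_mul]
      have h' := congrArg (fun z : ℤ => (z : ℝ)) h
      simpa only [Int.cast_natCast] using h'
    · refine ⟨-1, Or.inr rfl, ?_⟩
      rw [Int.cast_neg, Int.cast_one, neg_one_mul]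
      have h' := congrArg (fun z : ℤ => (z : ℝ)) h
      simpa only [Int.cast_natCast, Int.cast_neg] using h'
  obtain ⟨e, he, hne⟩ := hd
  refine ⟨(mat js).det * e, ?_, ?_⟩
  · rcases det_mat js with h | h <;> rcases he with h' | h' <;> rw [h, h'] <;> simp
  · have hdd : ((mat js).det : ℝ) * ((mat js).det : ℝ) = 1 := by
      rcases det_mat js with h | h <;> rw [h] <;> norm_num
    rw [div_eq_iff hN]
    have h1 : (ss js : ℝ) + g = ((mat js).det : ℝ) * (bval js * (nn js : ℝ)) := by
      rw [h, ← mul_assoc, hdd, one_mul]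
    rw [h1, hne, Int.cast_mul]
    ring

theorem main_levels (N : ℕ) (c : ℝ) (hc : c < 1 / 3) :
    ∃ (d : ℕ → ℕ) (α : ℝ), (∀ k, 1 ≤ k → 2 ≤ d k) ∧ ∀ n ≤ N, ∀ q : ℕ, 1 ≤ q →
      (∏ k ∈ Finset.Icc 1 n, d k) ∣ q →
        c ≤ (q : ℝ) / ((∏ k ∈ Finset.Icc 1 n, d k : ℕ) : ℝ) *
          |(q : ℝ) * α - ((round ((q : ℝ) * α) : ℤ) : ℝ)| := by
  have hg := lt_g
  have hg2 := g_lt
  obtain ⟨L, hL⟩ := exists_pow_lt_of_lt_one (show (0 : ℝ) < (1 / 3 - c) / 2 by linarith)
    (show g < 1 by linarith)
  have hgL : 0 ≤ g ^ L := pow_nonneg (by linarith) L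
  have hcL : c ≤ 1 / (3 + 2 * g ^ L) := by
    have h1 : (1 : ℝ) / 3 - 2 * g ^ L ≤ 1 / (3 + 2 * g ^ L) := by
      rw [le_div_iff₀ (by linarith)]
      nlinarith
    linarith
  set d : ℕ → ℕ := fun k => if k ≤ N then mm L (N + 1 - k) / mm L (N - k) else 2 with hd
  have ht : ∀ n ≤ N, (∏ k ∈ Finset.Icc 1 n, d k) * mm L (N - n) = mm L N := by
    intro n
    induction n with
    | zero => intro _; simp
    | succ n ih =>
      intro hn
      rw [Finset.prod_Icc_succ_top (by omega)]
      have h1 : d (n + 1) = mm L (N - n) / mm L (N - (n + 1)) := by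
        simp only [hd, if_pos hn]
        congr 2
        omega
      have h2 : mm L (N - (n + 1)) ∣ mm L (N - n) := mm_dvd (by omega)
      rw [h1, mul_assoc, Nat.div_mul_cancel h2]
      exact ih (by omega)
  refine ⟨d, ((ss (chain L N) : ℝ) + g) / (mm L N : ℝ), ?_, ?_⟩
  · intro k hk
    simp only [hd]
    split_ifs with h
    · have h1 := chain_spec L (N - k)
      have e : N - k + 1 = N + 1 - k := by omega
      rw [e] at h1
      rw [Nat.le_div_iff_mul_le (mm_pos L _)]
      obtain ⟨r, hr⟩ := h1.1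
      have hlt := h1.2.1
      have hpos := mm_pos L (N - k)
      unfold mm at hpos ⊢
      rw [hr] at hlt ⊢
      have : 1 < r := by
        by_contra hr1
        have : r ≤ 1 := by omega
        nlinarith
      nlinarith
    · exact le_rfl
  · intro n hn q hq hdvd
    obtain ⟨q', rfl⟩ := hdvd
    set t := ∏ k ∈ Finset.Icc 1 n, d k with htd
    have htn := ht n hn
    rw [← htd] at htn
    have ht0 : 0 < t := by
      rcases Nat.eq_zero_or_pos t with h | h
      · rw [h, zero_mul] at htn
        exact absurd htn.symm (mm_pos L N).ne'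
      · exact h
    have hq' : 1 ≤ q' := by
      rcases Nat.eq_zero_or_pos q' with h | h
      · rw [h, mul_zero] at hq
        omega
      · exact h
    have ht0' : (t : ℝ) ≠ 0 := by exact_mod_cast ht0.ne'
    have hmj : (mm L (N - n) : ℝ) ≠ 0 := by exact_mod_cast (mm_pos L _).ne'
    obtain ⟨s, hs⟩ := ss_dvd (L := L) (show N - n ≤ N by omega)
    obtain ⟨η, hη, hw⟩ := world_eq (chain L (N - n))
    have hsR : (ss (chain L N) : ℝ) = ss (chain L (N - n)) + (mm L (N - n) : ℝ) * s := by
      have : ss (chain L N) = ss (chain L (N - n)) + (mm L (N - n) : ℤ) * s := by linarith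
      exact_mod_cast this
    have hmR : (mm L N : ℝ) = t * (mm L (N - n) : ℝ) := by exact_mod_cast htn.symm
    have hw' : ((ss (chain L (N - n)) : ℝ) + g) / (mm L (N - n) : ℝ) =
        η * bval (chain L (N - n)) := hw
    have e1 : ((t * q' : ℕ) : ℝ) * (((ss (chain L N) : ℝ) + g) / (mm L N : ℝ)) =
        q' * (η * bval (chain L (N - n))) + q' * s := by
      rw [← hw', hmR, hsR]
      push_cast
      field_simp
      ring
    have e2 : ((t * q' : ℕ) : ℝ) / (t : ℝ) = q' := by
      push_cast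
      field_simp
    rw [e1, e2]
    set r := round ((q' : ℝ) * (η * bval (chain L (N - n))) + q' * s) with hr
    refine hcL.trans ?_
    have h1 := bad_blocks (L := L) (js := chain L (N - n)) (chain_mem L _) q' hq'
      (η * (r - q' * s))
    have e3 : |(q' : ℝ) * bval (chain L (N - n)) - ((η * (r - q' * s) : ℤ) : ℝ)| =
        |(q' : ℝ) * (η * bval (chain L (N - n))) + q' * s - (r : ℝ)| := by
      rcases hη with rfl | rfl
      · push_cast
        congr 1
        ring
      · rw [← abs_neg]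
        push_cast
        congr 1
        ring
    rwa [e3] at h1

end Pool.Agent.H66.ML
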