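import Pool.Agent.H66.ML.StepU

/-!
The mixed Littlewood identity holds for every real number and almost every sequence of
multipliers.
-/

namespace Pool.Agent.H66.ML

open MeasureTheory ProbabilityTheory

variable {Ω : Type} [MeasurableSpace Ω] {P : Measure Ω} [IsProbabilityMeasure P]

/-- The infimum of `q |q|_D ‖q α‖` is zero, written as in the frozen statement of the problem. -/
def MLZero (d : ℕ → ℕ) (α : ℝ) : Prop :=
  ∀ ε : ℝ, 0 < ε →
    ∃ q : ℕ, 1 ≤ q ∧ ∃ n : ℕ,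
      (∏ k ∈ Finset.Icc 1 n, d k) ∣ q ∧
      ¬ ((∏ k ∈ Finset.Icc 1 (n + 1), d k) ∣ q) ∧
      (q : ℝ) / ((∏ k ∈ Finset.Icc 1 n, d k : ℕ) : ℝ) *
        |(q : ℝ) * α - ((round ((q : ℝ) * α) : ℤ) : ℝ)| < ε

private theorem finalB_prod (d : ℕ → ℕ) (n : ℕ) :
    ∏ i ∈ Finset.range n, d (1 + i) = ∏ k ∈ Finset.Icc 1 n, d k := by
  induction n with
  | zero => simp
  | succ n ih =>
    rw [Finset.prod_range_succ, ih, Finset.prod_Icc_succ_top (by omega), Nat.add_comm 1 n]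

private theorem finalB_dvd (d : ℕ → ℕ) {m n : ℕ} (h : m ≤ n) :
    (∏ k ∈ Finset.Icc 1 m, d k) ∣ ∏ k ∈ Finset.Icc 1 n, d k :=
  Finset.prod_dvd_prod_of_subset _ _ _ (Finset.Icc_subset_Icc le_rfl h)

private theorem finalB_two_pow {d : ℕ → ℕ} (hd : ∀ k, 1 ≤ k → 2 ≤ d k) (n : ℕ) :
    2 ^ n ≤ ∏ k ∈ Finset.Icc 1 n, d k := by
  induction n with
  | zero => simp
  | succ n ih =>
    rw [Finset.prod_Icc_succ_top (by omega), pow_succ]
    exact Nat.mul_le_mul ih (hd _ (by omega))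

/-- A good multiple along the sequence of products gives small values. -/
theorem mlZero_of_good {d : ℕ → ℕ} (hd : ∀ k, 1 ≤ k → 2 ≤ d k) {α : ℝ}
    (h : ∀ ε : ℝ, 0 < ε → ∃ n, Good ε ((∏ i ∈ Finset.range n, d (1 + i)) • (α : UnitAddCircle))) :
    MLZero d α := by
  classical
  intro ε hε
  obtain ⟨n, q', hq', hlt⟩ := h ε hε
  rw [finalB_prod] at hlt
  set t : ℕ → ℕ := fun m => ∏ k ∈ Finset.Icc 1 m, d k with ht
  have htpos : ∀ m, 0 < t m := fun m => lt_of_lt_of_le (by positivity) (finalB_two_pow hd m)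
  have hdvd : ∀ {m m' : ℕ}, m ≤ m' → t m ∣ t m' := fun hm => finalB_dvd d hm
  set q : ℕ := t n * q' with hq
  have hqpos : 0 < q := Nat.mul_pos (htpos n) hq'
  have hex : ∃ m, ¬ t m ∣ q := by
    refine ⟨q, fun hdq => ?_⟩
    have h1 := Nat.le_of_dvd hqpos hdq
    have h2 : 2 ^ q ≤ t q := finalB_two_pow hd q
    have h3 : q < 2 ^ q := Nat.lt_two_pow_self
    omega
  have hspec := Nat.find_spec hex
  have hmin : ∀ m, m < Nat.find hex → t m ∣ q := fun m hm => not_not.1 (Nat.find_min hex hm)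
  have hnlt : n < Nat.find hex := by
    by_contra hcon
    exact hspec ((hdvd (not_lt.1 hcon)).trans (Dvd.intro _ rfl))
  obtain ⟨m, hm⟩ : ∃ m, Nat.find hex = m + 1 := ⟨Nat.find hex - 1, by omega⟩
  rw [hm] at hspec hnlt
  have hmq : t m ∣ q := hmin m (by omega)
  refine ⟨q, hqpos, m, hmq, hspec, ?_⟩
  have hnorm : |(q : ℝ) * α - ((round ((q : ℝ) * α) : ℤ) : ℝ)| =
      ‖q' • ((t n) • (α : UnitAddCircle))‖ := by
    rw [smul_smul, ← UnitAddCircle.norm_eq, Nat.mul_comm q' (t n), ← hq]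
    congr 1
    rw [← nsmul_eq_mul]
    rfl
  rw [hnorm]
  have hle : (q : ℝ) / ((t m : ℕ) : ℝ) ≤ (q' : ℝ) := by
    have htm : (0 : ℝ) < (t m : ℝ) := by exact_mod_cast htpos m
    rw [div_le_iff₀ htm, hq]
    have htle : t n ≤ t m := Nat.le_of_dvd (htpos m) (hdvd (by omega))
    have htle' : (t n : ℝ) ≤ (t m : ℝ) := by exact_mod_cast htle
    push_cast
    nlinarith [Nat.cast_nonneg (α := ℝ) q']
  exact lt_of_le_of_lt (mul_le_mul_of_nonneg_right hle (norm_nonneg _)) hlt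

theorem ae_mlZero_of_step {d : ℕ → Ω → ℕ} (hm : ∀ k, Measurable (d k)) (hi : iIndepFun d P)
    (h2 : ∀ k, ∀ᵐ ω ∂P, 2 ≤ d k ω)
    (hstep : ∀ ε : ℝ, 0 < ε → ∃ (L : ℕ) (p : ℝ), 0 < p ∧ ∀ (k : ℕ) (θ : UnitAddCircle),
      p ≤ P.real {ω | ∃ n ≤ L, (∏ i ∈ Finset.range n, d (k + i) ω) • θ ∈
        {θ : UnitAddCircle | Good ε θ}}) (α : ℝ) :
    ∀ᵐ ω ∂P, MLZero (fun k => d k ω) α := by
  have hi' : iIndepFun (fun k => d (1 + k)) P :=
    hi.precomp (g := fun k => 1 + k) fun a b hab => Nat.add_left_cancel hab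
  have hj : ∀ j : ℕ, ∀ᵐ ω ∂P, ∃ n, (∏ i ∈ Finset.range n, d (1 + i) ω) • (α : UnitAddCircle) ∈
      {θ : UnitAddCircle | Good (1 / ((j : ℝ) + 1)) θ} := by
    intro j
    obtain ⟨L, p, hp, hLp⟩ := hstep (1 / ((j : ℝ) + 1)) (by positivity)
    refine prob_criterion (d := fun k => d (1 + k)) (fun k => hm _) hi' _ L hp ?_ _
    intro k θ
    have := hLp (1 + k) θ
    simpa only [Nat.add_assoc] using this
  filter_upwards [ae_all_iff.2 hj, ae_all_iff.2 h2] with ω h1 h2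
  refine mlZero_of_good (d := fun k => d k ω) (fun k _ => h2 k) ?_
  intro ε hε
  obtain ⟨j, hj⟩ := exists_nat_one_div_lt hε
  obtain ⟨n, q, hq, hlt⟩ := h1 j
  exact ⟨n, q, hq, hlt.trans hj⟩

private theorem finalB_ge_two {f : Ω → ℕ} (hf : Measurable f) {X : ℕ} (hX : 3 ≤ X)
    (hu : ∀ m ∈ Finset.Icc 2 X, P.real {ω | f ω = m} = 1 / ((X : ℝ) - 1)) :
    ∀ᵐ ω ∂P, 2 ≤ f ω := by
  have hsum : P.real (f ⁻¹' (↑(Finset.Icc 2 X) : Set ℕ)) = 1 := by
    rw [← sum_measureReal_preimage_singleton (Finset.Icc 2 X)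
      (fun y _ => hf (measurableSet_singleton y))]
    have : ∀ m ∈ Finset.Icc 2 X, P.real (f ⁻¹' {m}) = 1 / ((X : ℝ) - 1) := fun m hm => hu m hm
    rw [Finset.sum_congr rfl this, Finset.sum_const, Nat.card_Icc, nsmul_eq_mul]
    have hX' : ((X + 1 - 2 : ℕ) : ℝ) = (X : ℝ) - 1 := by
      rw [show X + 1 - 2 = X - 1 by omega, Nat.cast_sub (by omega)]
      norm_num
    have hne : (X : ℝ) - 1 ≠ 0 := by
      have : (3 : ℝ) ≤ X := by exact_mod_cast hX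
      linarith
    rw [hX']
    field_simp
  have hmeas : MeasurableSet (f ⁻¹' (↑(Finset.Icc 2 X) : Set ℕ)) :=
    hf (Finset.measurableSet _)
  have hae : ∀ᵐ ω ∂P, ω ∈ f ⁻¹' (↑(Finset.Icc 2 X) : Set ℕ) := by
    refine (mem_ae_iff_prob_eq_one hmeas).2 ?_
    rw [Measure.real] at hsum
    exact (ENNReal.toReal_eq_one_iff _).1 hsum
  filter_upwards [hae] with ω hω
  exact (Finset.mem_Icc.1 (Finset.mem_coe.1 hω)).1

/-- **Main theorem.** -/
theorem main :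
    (∀ (Ω : Type) [MeasurableSpace Ω] (P : Measure Ω) [IsProbabilityMeasure P]
      (d : ℕ → Ω → ℕ) (a b : ℕ) (p : ℝ), (∀ k, Measurable (d k)) → iIndepFun d P →
      (∀ k, ∀ᵐ ω ∂P, 2 ≤ d k ω) → MInd a b → 0 < p → (∀ k, p ≤ P.real {ω | d k ω = a}) →
      (∀ k, p ≤ P.real {ω | d k ω = b}) →
      ∀ α : ℝ, ∀ᵐ ω ∂P, MLZero (fun k => d k ω) α) ∧
    (∀ (Ω : Type) [MeasurableSpace Ω] (P : Measure Ω) [IsProbabilityMeasure P]
      (d : ℕ → Ω → ℕ) (X : ℕ → ℕ), (∀ k, Measurable (d k)) → iIndepFun d P →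
      (∀ k, 3 ≤ X k) → (∀ k, ∀ m ∈ Finset.Icc 2 (X k), P.real {ω | d k ω = m} = 1 / ((X k : ℝ) - 1)) →
      ∀ α : ℝ, ∀ᵐ ω ∂P, MLZero (fun k => d k ω) α) := by
  refine ⟨?_, ?_⟩
  · intro Ω _ P _ d a b p hm hi h2 hab hp ha hb α
    refine ae_mlZero_of_step hm hi h2 ?_ α
    intro ε hε
    obtain ⟨L, hL⟩ := steering hab hε
    have hp1 : p ≤ 1 := (ha 0).trans measureReal_le_one
    exact ⟨L, p ^ L, pow_pos hp L, fun k θ => step_atoms_local hL hm hi hp hp1 k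
      (fun i _ => ha _) (fun i _ => hb _) θ⟩
  · intro Ω _ P _ d X hm hi hX hu α
    exact ae_mlZero_of_step hm hi (fun k => finalB_ge_two (hm k) (hX k) (hu k))
      (fun ε hε => step_unif hε hm hi X hX hu) α

end Pool.Agent.H66.ML
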