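import Mathlib

/-!
A lower bound for `q |q x - p|` for continued fractions with partial quotients one and two, in
terms of the values `a + x' + y'` (future plus past).
-/

namespace Pool.Agent.H66.ML

/-- The two-sided form decreases along the Euclidean algorithm. -/
theorem form_bound (R : Set (ℝ × ℝ)) (Λ : ℝ) (hΛ : 3 ≤ Λ)
    (hR : ∀ z ∈ R, 1 / 3 ≤ z.1 ∧ z.1 ≤ 1 ∧ 0 ≤ z.2 ∧ z.2 ≤ 1 ∧ 1 / z.1 + z.2 ≤ Λ ∧
      ∃ (a : ℕ) (x' : ℝ), (a = 1 ∨ a = 2) ∧ z.1 = 1 / (a + x') ∧ (x', 1 / (a + z.2)) ∈ R) :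
    ∀ q : ℕ, 1 ≤ q → ∀ z ∈ R, ∀ p : ℕ, 1 ≤ p →
      1 / Λ * (1 + z.1 * z.2) ≤ |(q : ℝ) * z.1 - p| * (q + z.2 * p) := by
  intro q
  induction q using Nat.strong_induction_on with
  | _ q ih =>
    rintro hq ⟨x, y⟩ hz p hp
    obtain ⟨hx1, hx2, hy1, hy2, hl, a, x', ha, hxa, hz'⟩ := hR _ hz
    obtain ⟨hx1', hx2', hy1', hy2', hl', -⟩ := hR _ hz'
    simp only at hx1 hx2 hy1 hy2 hl hxa hx1' hx2' hy1' hy2' hl' ⊢
    have ha1 : (1 : ℝ) ≤ a := by rcases ha with rfl | rfl <;> norm_num
    have ha2 : (a : ℝ) ≤ 2 := by rcases ha with rfl | rfl <;> norm_num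
    have hΛ0 : (0 : ℝ) < Λ := by linarith
    have hax : (0 : ℝ) < a + x' := by linarith
    have hay : (0 : ℝ) < a + y := by linarith
    have hxx : x * (a + x') = 1 := by rw [hxa]; field_simp
    have hx0 : 0 < x := by linarith
    have hp1 : (1 : ℝ) ≤ p := by exact_mod_cast hp
    have hq1 : (1 : ℝ) ≤ q := by exact_mod_cast hq
    by_cases hlt : a * p < q
    · -- continue
      obtain ⟨p', hp'⟩ : ∃ p' : ℕ, q = a * p + p' ∧ 1 ≤ p' := ⟨q - a * p, by omega, by omega⟩
      obtain ⟨hqe, hp'1⟩ := hp'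
      have hpq : p < q := by
        rcases ha with rfl | rfl <;> omega
      have h1 := ih p hpq hp _ hz' p' hp'1
      simp only at h1
      have hqr : (q : ℝ) = a * p + p' := by exact_mod_cast hqe
      have e1 : (q : ℝ) * x - p = -(x * ((p : ℝ) * x' - p')) := by
        have : (p : ℝ) = p * (x * (a + x')) := by rw [hxx, mul_one]
        rw [hqr]
        nlinarith [this]
      have e2 : (q : ℝ) + y * p = (a + y) * (p + 1 / (a + y) * p') := by
        rw [hqr]
        field_simp
        ring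
      have e3 : 1 + x * y = x * (a + y) * (1 + x' * (1 / (a + y))) := by
        field_simp
        nlinarith [hxx]
      rw [e1, abs_neg, abs_mul, abs_of_pos hx0, e2, e3]
      have h2 := mul_le_mul_of_nonneg_left h1 (mul_pos hx0 hay).le
      calc 1 / Λ * (x * (a + y) * (1 + x' * (1 / (a + y))))
          = x * (a + y) * (1 / Λ * (1 + x' * (1 / (a + y)))) := by ring
        _ ≤ x * (a + y) * (|(p : ℝ) * x' - p'| * (p + 1 / (a + y) * p')) := h2
        _ = x * |(p : ℝ) * x' - p'| * ((a + y) * (p + 1 / (a + y) * p')) := by ring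
    · -- stop
      push Not at hlt
      obtain ⟨r, hr⟩ : ∃ r : ℕ, q + r = a * p := ⟨a * p - q, by omega⟩
      have hqr : (q : ℝ) = a * p - r := by
        have : (q : ℝ) + r = a * p := by exact_mod_cast hr
        linarith
      have e1 : (q : ℝ) * x - p = -(x * ((p : ℝ) * x' + r)) := by
        have : (p : ℝ) = p * (x * (a + x')) := by rw [hxx, mul_one]
        rw [hqr]
        nlinarith [this]
      have hr0 : (0 : ℝ) ≤ r := Nat.cast_nonneg r
      have hpos : 0 ≤ (p : ℝ) * x' + r := by positivity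
      rw [e1, abs_neg, abs_mul, abs_of_pos hx0, abs_of_nonneg hpos]
      have e3 : 1 + x * y = x * (a + x' + y) := by nlinarith [hxx]
      rw [e3]
      have key : 1 / Λ * (a + x' + y) ≤ ((p : ℝ) * x' + r) * (q + y * p) := by
        rcases Nat.eq_zero_or_pos r with rfl | hr1
        · -- `q = a p`
          have h3 : a + x' + y ≤ Λ * (x' * (a + y)) := by
            have hx0' : 0 < x' := by linarith
            have := mul_le_mul_of_nonneg_right hl' (mul_pos hx0' hay).le
            calc a + x' + y = (1 / x' + 1 / (a + y)) * (x' * (a + y)) := by field_simp; ring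
              _ ≤ Λ * (x' * (a + y)) := this
          have h4 : x' * (a + y) ≤ ((p : ℝ) * x' + (0 : ℕ)) * (q + y * p) := by
            rw [hqr]
            push_cast
            have hx0' : 0 < x' := by linarith
            have : x' * (a + y) * 1 ≤ x' * (a + y) * (p * p) := by
              apply mul_le_mul_of_nonneg_left _ (mul_pos hx0' hay).le
              nlinarith
            nlinarith
          calc 1 / Λ * (a + x' + y) ≤ 1 / Λ * (Λ * (x' * (a + y))) :=
                mul_le_mul_of_nonneg_left h3 (by positivity)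
            _ = x' * (a + y) := by field_simp
            _ ≤ _ := h4
        · have hr1' : (1 : ℝ) ≤ r := by exact_mod_cast hr1
          have h3 : 1 / Λ * (a + x' + y) ≤ 1 / 3 * 4 := by
            apply mul_le_mul _ (by linarith) (by positivity) (by norm_num)
            exact one_div_le_one_div_of_le (by norm_num) hΛ
          have h4 : (4 / 3 : ℝ) * 1 ≤ ((p : ℝ) * x' + r) * (q + y * p) := by
            apply mul_le_mul _ _ (by norm_num) hpos
            · nlinarith
            · nlinarith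
          linarith
      calc 1 / Λ * (x * (a + x' + y)) = x * (1 / Λ * (a + x' + y)) := by ring
        _ ≤ x * (((p : ℝ) * x' + r) * (q + y * p)) := mul_le_mul_of_nonneg_left key hx0.le
        _ = x * ((p : ℝ) * x' + r) * (q + y * p) := by ring

/-- Lower bound for all approximations of a number whose orbit stays in `R`. -/
theorem bad_of_closed (R : Set (ℝ × ℝ)) (Λ : ℝ) (hΛ : 3 ≤ Λ)
    (hR : ∀ z ∈ R, 1 / 3 ≤ z.1 ∧ z.1 ≤ 1 ∧ 0 ≤ z.2 ∧ z.2 ≤ 1 ∧ 1 / z.1 + z.2 ≤ Λ ∧
      ∃ (a : ℕ) (x' : ℝ), (a = 1 ∨ a = 2) ∧ z.1 = 1 / (a + x') ∧ (x', 1 / (a + z.2)) ∈ R)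
    {x : ℝ} (hx : (x, 0) ∈ R) (q : ℕ) (hq : 1 ≤ q) (p : ℤ) :
    1 / Λ ≤ (q : ℝ) * |(q : ℝ) * x - p| := by
  have hq1 : (1 : ℝ) ≤ q := by exact_mod_cast hq
  rcases le_or_gt p 0 with hp | hp
  · have hx1 := (hR _ hx).1
    simp only at hx1
    have hp' : (p : ℝ) ≤ 0 := by exact_mod_cast hp
    have h1 : 1 / Λ ≤ 1 / 3 := one_div_le_one_div_of_le (by norm_num) hΛ
    have h2 : (q : ℝ) * x ≤ |(q : ℝ) * x - p| := by
      refine le_trans ?_ (le_abs_self _)
      linarith
    have h3 : x ≤ (q : ℝ) * x := by nlinarith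
    nlinarith [abs_nonneg ((q : ℝ) * x - p)]
  · obtain ⟨n, rfl⟩ := Int.eq_ofNat_of_zero_le hp.le
    have hn : 1 ≤ n := by exact_mod_cast hp
    have := form_bound R Λ hΛ hR q hq _ hx n hn
    simp only [mul_zero, add_zero, mul_one, zero_mul] at this
    rw [mul_comm]
    exact_mod_cast this

end Pool.Agent.H66.ML
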