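import Pool.Agent.H66.ML.Acc

/-!
A nonempty closed subset of the circle that is invariant under multiplication by two
multiplicatively independent integers contains a point of finite order (Furstenberg; the argument
follows Boshernitzan).
-/

namespace Pool.Agent.H66.ML

open Pointwise

/-- A minimal nonempty closed subset that is invariant under two continuous maps. -/
theorem exists_minimal {f g : UnitAddCircle → UnitAddCircle} {X : Set UnitAddCircle}
    (hX : IsClosed X) (hne : X.Nonempty) (hf : ∀ x ∈ X, f x ∈ X) (hg : ∀ x ∈ X, g x ∈ X) :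
    ∃ M ⊆ X, IsClosed M ∧ M.Nonempty ∧ (∀ x ∈ M, f x ∈ M) ∧ (∀ x ∈ M, g x ∈ M) ∧
      ∀ M' ⊆ M, IsClosed M' → M'.Nonempty → (∀ x ∈ M', f x ∈ M') → (∀ x ∈ M', g x ∈ M') →
        M' = M := by
  set S : Set (Set UnitAddCircle) := {M | M ⊆ X ∧ IsClosed M ∧ M.Nonempty ∧
    (∀ x ∈ M, f x ∈ M) ∧ (∀ x ∈ M, g x ∈ M)} with hS
  obtain ⟨M, hM⟩ := zorn_superset S (by
    intro c hc hchain
    by_cases hcn : c.Nonempty
    · refine ⟨⋂₀ c, ⟨?_, ?_, ?_, ?_, ?_⟩, fun s hs => Set.sInter_subset_of_mem hs⟩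
      · obtain ⟨s, hs⟩ := hcn
        exact (Set.sInter_subset_of_mem hs).trans (hc hs).1
      · exact isClosed_sInter fun s hs => (hc hs).2.1
      · have : Nonempty c := hcn.to_subtype
        refine IsCompact.nonempty_sInter_of_directed_nonempty_isCompact_isClosed ?_ ?_ ?_ ?_
        · intro s hs t ht
          rcases hchain.total hs ht with h | h
          · exact ⟨s, hs, subset_rfl, h⟩
          · exact ⟨t, ht, h, subset_rfl⟩
        · exact fun s hs => (hc hs).2.2.1
        · exact fun s hs => (hc hs).2.1.isCompact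
        · exact fun s hs => (hc hs).2.1
      · intro x hx s hs
        exact (hc hs).2.2.2.1 x (hx s hs)
      · intro x hx s hs
        exact (hc hs).2.2.2.2 x (hx s hs)
    · rw [Set.not_nonempty_iff_eq_empty] at hcn
      exact ⟨X, ⟨subset_rfl, hX, hne, hf, hg⟩, fun s hs => by rw [hcn] at hs; exact hs.elim⟩)
  obtain ⟨h1, h2, h3, h4, h5⟩ := hM.prop
  refine ⟨M, h1, h2, h3, h4, h5, ?_⟩
  intro M' hM' hc hn hf' hg'
  have hmem : M' ∈ S := ⟨hM'.trans h1, hc, hn, hf', hg'⟩
  exact Set.Subset.antisymm hM' (hM.le_of_le hmem hM')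

/-- The difference set of an infinite closed set accumulates at zero. -/
theorem zero_mem_closure_sub {M : Set UnitAddCircle} (hinf : M.Infinite) :
    (0 : UnitAddCircle) ∈ closure ((M - M) \ {0}) := by
  let u : ℕ → UnitAddCircle := fun n => (hinf.natEmbedding M n : UnitAddCircle)
  have hu : Function.Injective u := fun m n h =>
    (hinf.natEmbedding M).injective (Subtype.ext h)
  have huM : ∀ n, u n ∈ M := fun n => (hinf.natEmbedding M n).2
  obtain ⟨x, -, φ, hφ, hx⟩ := isCompact_univ.tendsto_subseq (x := u) (fun n => Set.mem_univ _)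
  have h1 : Filter.Tendsto (fun n => u (φ (n + 1)) - u (φ n)) Filter.atTop (nhds (x - x)) := by
    refine Filter.Tendsto.sub ?_ hx
    exact hx.comp (Filter.tendsto_add_atTop_nat 1)
  rw [sub_self] at h1
  refine mem_closure_of_tendsto h1 (Filter.Eventually.of_forall fun n => ⟨?_, ?_⟩)
  · exact Set.sub_mem_sub (huM _) (huM _)
  · intro h
    rw [Set.mem_singleton_iff, sub_eq_zero] at h
    have h2 := hφ.injective (hu h)
    omega

private theorem Furst_pow {X : Set UnitAddCircle} {a : ℕ} (hXa : ∀ x ∈ X, a • x ∈ X) (k : ℕ) :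
    ∀ x ∈ X, (a ^ k) • x ∈ X := by
  induction k with
  | zero => intro x hx; simpa using hx
  | succ k ih =>
    intro x hx
    rw [pow_succ', mul_smul]
    exact hXa _ (ih x hx)

private theorem Furst_mind {a b : ℕ} (h : MInd a b) {k : ℕ} (hk : 0 < k) :
    MInd (a ^ k) (b ^ k) := by
  obtain ⟨ha, hb, hab⟩ := h
  refine ⟨?_, ?_, ?_⟩
  · calc 2 ≤ a := ha
      _ = a ^ 1 := (pow_one a).symm
      _ ≤ a ^ k := Nat.pow_le_pow_right (by omega) hk
  · calc 2 ≤ b := hb
      _ = b ^ 1 := (pow_one b).symm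
      _ ≤ b ^ k := Nat.pow_le_pow_right (by omega) hk
  · intro i j hi hj
    rw [← pow_mul, ← pow_mul]
    exact hab _ _ (Nat.mul_pos hk hi) (Nat.mul_pos hk hj)

private theorem Furst_inf {a : ℕ} (ha : 2 ≤ a) {M : Set UnitAddCircle} (hM : M.Nonempty)
    (hMa : ∀ x ∈ M, a • x ∈ M) (hno : ∀ x ∈ M, ¬ IsOfFinAddOrder x) : M.Infinite := by
  intro hfin
  obtain ⟨x, hx⟩ := hM
  have hmem : ∀ n : ℕ, (a ^ n) • x ∈ M := fun n => Furst_pow hMa n x hx
  have hnotinj : ¬ Function.Injective (fun n : ℕ => (⟨(a ^ n) • x, hmem n⟩ : M)) := by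
    have := hfin.to_subtype
    exact not_injective_infinite_finite _
  rw [Function.Injective] at hnotinj
  push Not at hnotinj
  obtain ⟨m, n, hmn, hne⟩ := hnotinj
  have heq : (a ^ m) • x = (a ^ n) • x := congrArg Subtype.val hmn
  apply hno x hx
  wlog hlt : m < n generalizing m n
  · exact this n m hmn.symm (Ne.symm hne) heq.symm (lt_of_le_of_ne (not_lt.1 hlt) (Ne.symm hne))
  rw [isOfFinAddOrder_iff_nsmul_eq_zero]
  have hpow : a ^ m < a ^ n := Nat.pow_lt_pow_right (by omega) hlt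
  refine ⟨a ^ n - a ^ m, by omega, ?_⟩
  have h1 : (a ^ n - a ^ m) • x + (a ^ m) • x = (a ^ n) • x := by
    rw [← add_smul]
    congr 1
    omega
  rw [heq] at h1
  simpa using h1

private theorem Furst_fix {t n : ℕ} (ht : 0 < t) (hn : n ≡ 1 [MOD t]) (hn1 : 1 ≤ n) :
    n • ((1 / (t : ℝ) : ℝ) : UnitAddCircle) = ((1 / (t : ℝ) : ℝ) : UnitAddCircle) := by
  obtain ⟨m, hm⟩ := (Nat.modEq_iff_dvd' hn1).1 hn.symm
  have hn' : n = t * m + 1 := by omega
  have ht' : (t : ℝ) ≠ 0 := by positivity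
  rw [hn', add_smul, one_smul, mul_comm, mul_smul]
  have h0 : t • ((1 / (t : ℝ) : ℝ) : UnitAddCircle) = 0 := by
    rw [← AddCircle.coe_nsmul, nsmul_eq_mul, mul_one_div_cancel ht']
    exact AddCircle.coe_period 1
  rw [h0, smul_zero, zero_add]

private theorem Furst_near {t : ℕ} (ht : 0 < t) (x : UnitAddCircle) :
    ∃ j : ℕ, ‖x - j • ((1 / (t : ℝ) : ℝ) : UnitAddCircle)‖ ≤ 1 / t := by
  obtain ⟨r, hr, rfl⟩ : ∃ r : ℝ, 0 ≤ r ∧ (r : UnitAddCircle) = x := by
    obtain ⟨r, hr⟩ := QuotientAddGroup.mk_surjective x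
    refine ⟨Int.fract r, Int.fract_nonneg r, ?_⟩
    rw [← hr]
    symm
    show (r : UnitAddCircle) = (Int.fract r : ℝ)
    rw [← sub_eq_zero, ← AddCircle.coe_sub, Int.self_sub_fract]
    exact (AddCircle.coe_eq_zero_iff 1).2 ⟨⌊r⌋, by simp⟩
  have ht' : (0 : ℝ) < t := by exact_mod_cast ht
  refine ⟨⌊r * t⌋₊, ?_⟩
  rw [← AddCircle.coe_nsmul, ← AddCircle.coe_sub, UnitAddCircle.norm_eq]
  refine (round_le _ 0).trans ?_
  rw [Int.cast_zero, sub_zero, nsmul_eq_mul, mul_one_div, abs_le]
  have h1 : (⌊r * t⌋₊ : ℝ) ≤ r * t := Nat.floor_le (by positivity)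
  have h2 : r * t < ⌊r * t⌋₊ + 1 := Nat.lt_floor_add_one _
  constructor
  · have h3 : (⌊r * t⌋₊ : ℝ) / t ≤ r := by rw [div_le_iff₀ ht']; exact h1
    have h4 : 0 ≤ 1 / (t : ℝ) := by positivity
    linarith
  · have h3 : r ≤ (⌊r * t⌋₊ : ℝ) / t + 1 / t := by
      rw [← add_div, le_div_iff₀ ht']
      exact h2.le
    linarith

theorem exists_finite_order {a b : ℕ} (h : MInd a b) {X : Set UnitAddCircle} (hX : IsClosed X)
    (hne : X.Nonempty) (hXa : ∀ x ∈ X, a • x ∈ X) (hXb : ∀ x ∈ X, b • x ∈ X) :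
    ∃ x ∈ X, IsOfFinAddOrder x := by
  by_contra hno
  push Not at hno
  have hzero : (0 : UnitAddCircle) ∈ closure X := by
    rw [Metric.mem_closure_iff]
    intro ε hε
    obtain ⟨n, hn⟩ := exists_nat_one_div_lt hε
    obtain ⟨t, htn, htp⟩ := Nat.exists_infinite_primes (a * b + n + 1)
    have ht : 0 < t := htp.pos
    have ha2 := h.1
    have hb2 := h.2.1
    have hat : a < t := by nlinarith
    have hbt : b < t := by nlinarith
    have hca : Nat.Coprime a t := (Nat.coprime_of_lt_prime (by omega) hat htp).symm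
    have hcb : Nat.Coprime b t := (Nat.coprime_of_lt_prime (by omega) hbt htp).symm
    set k := Nat.totient t with hk
    have hk0 : 0 < k := Nat.totient_pos.2 ht
    have hka : a ^ k ≡ 1 [MOD t] := Nat.ModEq.pow_totient hca
    have hkb : b ^ k ≡ 1 [MOD t] := Nat.ModEq.pow_totient hcb
    have hmi := Furst_mind h hk0
    obtain ⟨M, hMX, hMc, hMn, hMa, hMb, hmin⟩ := exists_minimal (f := fun x => (a ^ k) • x)
      (g := fun x => (b ^ k) • x) hX hne (Furst_pow hXa k) (Furst_pow hXb k)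
    have hMi : M.Infinite := Furst_inf hmi.1 hMn hMa fun x hx => hno x (hMX hx)
    have hY : M - M = Set.univ := by
      have hcomp : IsCompact (M - M) := by
        rw [← Set.sub_image_prod]
        exact (hMc.isCompact.prod hMc.isCompact).image continuous_sub
      refine eq_univ_of_acc hmi hcomp.isClosed ?_ ?_ (zero_mem_closure_sub hMi)
      · rintro _ ⟨x, hx, y, hy, rfl⟩
        show (a ^ k) • (x - y) ∈ M - M
        rw [smul_sub]
        exact Set.sub_mem_sub (hMa x hx) (hMa y hy)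
      · rintro _ ⟨x, hx, y, hy, rfl⟩
        show (b ^ k) • (x - y) ∈ M - M
        rw [smul_sub]
        exact Set.sub_mem_sub (hMb x hx) (hMb y hy)
    set c : UnitAddCircle := ((1 / (t : ℝ) : ℝ) : UnitAddCircle) with hc
    have hca' : (a ^ k) • c = c := Furst_fix ht hka (Nat.one_le_pow _ _ (by omega))
    have hcb' : (b ^ k) • c = c := Furst_fix ht hkb (Nat.one_le_pow _ _ (by omega))
    have hM' : {x | x ∈ M ∧ x - c ∈ M} = M := by
      refine hmin _ (fun x hx => hx.1) ?_ ?_ ?_ ?_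
      · exact hMc.inter (hMc.preimage (continuous_id.sub continuous_const))
      · have hcm : c ∈ M - M := by rw [hY]; exact Set.mem_univ _
        obtain ⟨x, hx, y, hy, hxy⟩ := hcm
        refine ⟨x, hx, ?_⟩
        have hxy' : x - y = c := hxy
        have : x - c = y := by rw [← hxy', sub_sub_cancel]
        rw [this]
        exact hy
      · rintro x ⟨hx, hx'⟩
        refine ⟨hMa x hx, ?_⟩
        have := hMa _ hx'
        simp only [smul_sub, hca'] at this
        exact this
      · rintro x ⟨hx, hx'⟩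
        refine ⟨hMb x hx, ?_⟩
        have := hMb _ hx'
        simp only [smul_sub, hcb'] at this
        exact this
    have hall : ∀ x ∈ M, ∀ j : ℕ, x - j • c ∈ M := by
      intro x hx j
      induction j with
      | zero => simpa using hx
      | succ j ih =>
        have h1 : x - j • c ∈ {x | x ∈ M ∧ x - c ∈ M} := by rw [hM']; exact ih
        have h2 := h1.2
        rw [succ_nsmul]
        have h3 : x - (j • c + c) = x - j • c - c := by abel
        rw [h3]
        exact h2
    obtain ⟨x, hx⟩ := hMn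
    obtain ⟨j, hj⟩ := Furst_near ht x
    refine ⟨x - j • c, hMX (hall x hx j), ?_⟩
    rw [dist_eq_norm, zero_sub, norm_neg]
    refine lt_of_le_of_lt hj (lt_of_le_of_lt ?_ hn)
    apply one_div_le_one_div_of_le (by positivity)
    have : n + 1 ≤ t := by omega
    exact_mod_cast this
  rw [hX.closure_eq] at hzero
  exact hno 0 hzero (IsOfFinAddOrder.zero)

end Pool.Agent.H66.ML
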