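import Pool.Agent.H66.ML.Alg

/-!
For `m` prime to six the matrices of lists of blocks with at least `L` ones reach every line modulo
`m`.
-/

namespace Pool.Agent.H66.ML

open Function Matrix

section

variable (m : ℕ)

/-- Reduction modulo `m`. -/
def red : Matrix (Fin 2) (Fin 2) ℤ →+* Matrix (Fin 2) (Fin 2) (ZMod m) :=
  (Int.castRingHom (ZMod m)).mapMatrix

/-- The unit given by two inverse integer matrices. -/
def unit (A B : Matrix (Fin 2) (Fin 2) ℤ) (h : A * B = 1) (h' : B * A = 1) :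
    (Matrix (Fin 2) (Fin 2) (ZMod m))ˣ where
  val := red m A
  inv := red m B
  val_inv := by rw [← map_mul, h, map_one]
  inv_val := by rw [← map_mul, h', map_one]

/-- The inverse of `M1`. -/
def M1i : Matrix (Fin 2) (Fin 2) ℤ := !![0, 1; 1, -1]

/-- The inverse of `M22`. -/
def M22i : Matrix (Fin 2) (Fin 2) ℤ := !![1, -2; -2, 5]

theorem m1_i : M1 * M1i = 1 := by
  ext i j
  fin_cases i <;> fin_cases j <;> simp [M1, M1i, Matrix.mul_apply, Fin.sum_univ_two]

theorem m1i_ : M1i * M1 = 1 := by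
  ext i j
  fin_cases i <;> fin_cases j <;> simp [M1, M1i, Matrix.mul_apply, Fin.sum_univ_two]

theorem m22_i : M22 * M22i = 1 := by
  ext i j
  fin_cases i <;> fin_cases j <;> simp [M22, M22i, Matrix.mul_apply, Fin.sum_univ_two]

theorem m22i_ : M22i * M22 = 1 := by
  ext i j
  fin_cases i <;> fin_cases j <;> simp [M22, M22i, Matrix.mul_apply, Fin.sum_univ_two]

/-- The image of `M1`. -/
def uu : (Matrix (Fin 2) (Fin 2) (ZMod m))ˣ := unit m M1 M1i m1_i m1i_

/-- The image of `M22`. -/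
def ww : (Matrix (Fin 2) (Fin 2) (ZMod m))ˣ := unit m M22 M22i m22_i m22i_

theorem val_uu : (uu m : Matrix (Fin 2) (Fin 2) (ZMod m)) = red m M1 := rfl

theorem val_ww : (ww m : Matrix (Fin 2) (Fin 2) (ZMod m)) = red m M22 := rfl

theorem val_uu_inv : ((uu m)⁻¹ : (Matrix (Fin 2) (Fin 2) (ZMod m))ˣ).val = red m M1i := rfl

theorem val_ww_inv : ((ww m)⁻¹ : (Matrix (Fin 2) (Fin 2) (ZMod m))ˣ).val = red m M22i := rfl

/-- The blocks. -/
def SS (L : ℕ) : Set (Matrix (Fin 2) (Fin 2) (ZMod m))ˣ := {x | ∃ j, L ≤ j ∧ x = uu m ^ j * ww m}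

theorem list_of_blocks (L : ℕ) : ∀ l : List (Matrix (Fin 2) (Fin 2) (ZMod m))ˣ,
    (∀ x ∈ l, x ∈ SS m L) → ∃ js : List ℕ, js.length = l.length ∧ (∀ j ∈ js, L ≤ j) ∧
      red m (mat js) = (l.prod : (Matrix (Fin 2) (Fin 2) (ZMod m))ˣ).val := by
  intro l
  induction l with
  | nil => intro _; exact ⟨[], rfl, by simp, by simp [mat]⟩
  | cons x l ih =>
    intro h
    obtain ⟨js, h1, h2, h3⟩ := ih fun y hy => h y (by simp [hy])
    obtain ⟨j, hj, rfl⟩ := h x (by simp)
    refine ⟨j :: js, by simp [h1], ?_, ?_⟩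
    · intro i hi
      rcases List.mem_cons.1 hi with rfl | hi
      · exact hj
      · exact h2 i hi
    · rw [mat, map_mul, map_mul, map_pow, h3, List.prod_cons, Units.val_mul, Units.val_mul,
        Units.val_pow_eq_pow_val, val_uu, val_ww, mul_assoc]

theorem uu_mem (L : ℕ) : uu m ∈ Subgroup.closure (SS m L) := by
  have h1 : uu m ^ (L + 1) * ww m ∈ Subgroup.closure (SS m L) :=
    Subgroup.subset_closure ⟨L + 1, by omega, rfl⟩
  have h2 : uu m ^ L * ww m ∈ Subgroup.closure (SS m L) :=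
    Subgroup.subset_closure ⟨L, le_rfl, rfl⟩
  have h3 := mul_mem h1 (inv_mem h2)
  have e : uu m ^ (L + 1) * ww m * (uu m ^ L * ww m)⁻¹ = uu m := by
    rw [pow_succ']
    group
  rwa [e] at h3

theorem ww_mem (L : ℕ) : ww m ∈ Subgroup.closure (SS m L) := by
  have h2 : uu m ^ L * ww m ∈ Subgroup.closure (SS m L) :=
    Subgroup.subset_closure ⟨L, le_rfl, rfl⟩
  have h3 := mul_mem (inv_mem (pow_mem (uu_mem m L) L)) h2
  have e : (uu m ^ L)⁻¹ * (uu m ^ L * ww m) = ww m := by group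
  rwa [e] at h3

/-- The first parabolic element. -/
def pp : (Matrix (Fin 2) (Fin 2) (ZMod m))ˣ :=
  ww m * (uu m)⁻¹ * (uu m)⁻¹ * (ww m)⁻¹ * uu m * uu m

/-- The second parabolic element. -/
def pt : (Matrix (Fin 2) (Fin 2) (ZMod m))ˣ :=
  uu m * uu m * (ww m)⁻¹ * (uu m)⁻¹ * (uu m)⁻¹ * ww m

theorem val_pp : (pp m).val = red m !![-1, -6; 0, -1] := by
  have h : M22 * M1i * M1i * M22i * M1 * M1 = !![-1, -6; 0, -1] := by
    ext i j
    fin_cases i <;> fin_cases j <;>
      simp [M22, M22i, M1, M1i, Matrix.mul_apply, Fin.sum_univ_two]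
  rw [← h]
  simp only [pp, Units.val_mul, val_uu, val_ww, val_uu_inv, val_ww_inv, map_mul]

theorem val_pt : (pt m).val = red m !![-1, 0; -6, -1] := by
  have h : M1 * M1 * M22i * M1i * M1i * M22 = !![-1, 0; -6, -1] := by
    ext i j
    fin_cases i <;> fin_cases j <;>
      simp [M22, M22i, M1, M1i, Matrix.mul_apply, Fin.sum_univ_two]
  rw [← h]
  simp only [pt, Units.val_mul, val_uu, val_ww, val_uu_inv, val_ww_inv, map_mul]

theorem pow_pp (e : ℕ) : (!![-1, -6; 0, -1] : Matrix (Fin 2) (Fin 2) ℤ) ^ e =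
    !![(-1 : ℤ) ^ e, (-1 : ℤ) ^ e * (6 * (e : ℤ)); 0, (-1 : ℤ) ^ e] := by
  induction e with
  | zero =>
    ext i j
    fin_cases i <;> fin_cases j <;> simp
  | succ e ih =>
    rw [pow_succ, ih]
    ext i j
    fin_cases i <;> fin_cases j <;> simp [Matrix.mul_apply, Fin.sum_univ_two, pow_succ]
    ring

theorem pow_pt (e : ℕ) : (!![-1, 0; -6, -1] : Matrix (Fin 2) (Fin 2) ℤ) ^ e =
    !![(-1 : ℤ) ^ e, 0; (-1 : ℤ) ^ e * (6 * (e : ℤ)), (-1 : ℤ) ^ e] := by
  induction e with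
  | zero =>
    ext i j
    fin_cases i <;> fin_cases j <;> simp
  | succ e ih =>
    rw [pow_succ, ih]
    ext i j
    fin_cases i <;> fin_cases j <;> simp [Matrix.mul_apply, Fin.sum_univ_two, pow_succ]
    ring

end

theorem exists_block {m : ℕ} (hm : 0 < m) (h2 : ¬ (2 : ℤ) ∣ m) (h3 : ¬ (3 : ℤ) ∣ m) (σ : ℤ)
    (L K : ℕ) : ∃ js : List ℕ, (∀ j ∈ js, L ≤ j) ∧ K ≤ js.length ∧
      (m : ℤ) ∣ (mat js) 0 0 + σ * (mat js) 0 1 := by
  have : NeZero m := ⟨hm.ne'⟩
  -- six is invertible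
  have hcop : Nat.Coprime 6 m := by
    have h2' : Nat.Coprime 2 m := (Nat.Prime.coprime_iff_not_dvd Nat.prime_two).2
      (fun h => h2 (by exact_mod_cast h))
    have h3' : Nat.Coprime 3 m := (Nat.Prime.coprime_iff_not_dvd Nat.prime_three).2
      (fun h => h3 (by exact_mod_cast h))
    have : Nat.Coprime (2 * 3) m := Nat.Coprime.mul_left h2' h3'
    simpa using this
  have hunit : IsUnit ((6 : ℕ) : ZMod m) := (ZMod.isUnit_iff_coprime 6 m).2 hcop
  obtain ⟨v, hv⟩ := hunit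
  have hsolve : ∀ b : ZMod m, ∃ e : ℕ, (6 : ZMod m) * e = b := by
    intro b
    refine ⟨((v⁻¹ : (ZMod m)ˣ).val * b).val, ?_⟩
    rw [ZMod.natCast_val, ZMod.cast_id', id, ← mul_assoc]
    have : (6 : ZMod m) * (v⁻¹ : (ZMod m)ˣ).val = 1 := by
      have h6 : (6 : ZMod m) = v.val := by rw [hv]; norm_num
      rw [h6]
      exact v.mul_inv
    rw [this, one_mul]
  obtain ⟨f, hf⟩ := hsolve (1 - (σ : ZMod m))
  obtain ⟨e, he⟩ := hsolve (-1)
  -- the target
  have hmem : pp m ^ e * pt m ^ f ∈ Subgroup.closure (SS m L) := by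
    have hu := uu_mem m L
    have hw := ww_mem m L
    refine mul_mem (pow_mem ?_ e) (pow_mem ?_ f)
    · exact mul_mem (mul_mem (mul_mem (mul_mem (mul_mem hw (inv_mem hu)) (inv_mem hu))
        (inv_mem hw)) hu) hu
    · exact mul_mem (mul_mem (mul_mem (mul_mem (mul_mem hu hu) (inv_mem hw)) (inv_mem hu))
        (inv_mem hu)) hw
  have hmem' : pp m ^ e * pt m ^ f ∈ Submonoid.closure (SS m L) := by
    rw [← Subgroup.closure_toSubmonoid_of_finite]
    exact hmem
  obtain ⟨l, hl, hprod⟩ := Submonoid.exists_list_of_mem_closure hmem'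
  set E := uu m ^ L * ww m with hE
  have hEo : 0 < orderOf E := orderOf_pos E
  obtain ⟨js, hlen, hjs, hred⟩ := list_of_blocks m L (List.replicate (orderOf E * K) E ++ l) (by
    intro x hx
    rcases List.mem_append.1 hx with hx | hx
    · rw [List.eq_of_mem_replicate hx]
      exact ⟨L, le_rfl, rfl⟩
    · exact hl x hx)
  refine ⟨js, hjs, ?_, ?_⟩
  · rw [hlen, List.length_append, List.length_replicate]
    nlinarith
  · rw [List.prod_append, List.prod_replicate, pow_mul, pow_orderOf_eq_one, one_pow, one_mul,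
      hprod, Units.val_mul, Units.val_pow_eq_pow_val, Units.val_pow_eq_pow_val, val_pp, val_pt,
      ← map_pow (red m) _ e, ← map_pow (red m) _ f, ← map_mul, pow_pp, pow_pt] at hred
    have e00 := congrFun (congrFun hred 0) 0
    have e01 := congrFun (congrFun hred 0) 1
    simp only [red, RingHom.mapMatrix_apply, Matrix.map_apply, Int.coe_castRingHom,
      Matrix.mul_apply, Fin.sum_univ_two, Matrix.of_apply, Matrix.cons_val', Matrix.cons_val_zero,
      Matrix.cons_val_one, Matrix.cons_val_fin_one] at e00 e01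
    rw [← ZMod.intCast_zmod_eq_zero_iff_dvd]
    push_cast at e00 e01 ⊢
    rw [e00, e01]
    have h1 : (-1 : ZMod m) ^ e * (-1) ^ f * (1 + 6 * e * (6 * f + σ)) = 0 := by
      rw [he, hf]
      ring
    linear_combination h1

end Pool.Agent.H66.ML
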