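import Pool.Agent.H66.ML.BDefs

/-!
A positive proportion of the multiples of every point is `ε`-well approximable.
-/

namespace Pool.Agent.H66.ML

/-- Every point has a multiple close to zero. -/
theorem mult_dirichlet {ε : ℝ} (hε : 0 < ε) : ∃ K : ℕ, 0 < K ∧ ∀ θ : UnitAddCircle,
    ∃ j : ℕ, 1 ≤ j ∧ j ≤ K ∧ Good ε (j • θ) := by
  obtain ⟨K, hK⟩ := exists_nat_gt (1 / ε)
  have hK0 : (0 : ℝ) < K := lt_trans (by positivity) hK
  have hKn : 0 < K := by exact_mod_cast hK0
  refine ⟨K, hKn, fun θ => ?_⟩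
  obtain ⟨j, hj, h⟩ := AddCircle.exists_norm_nsmul_le θ hKn
  rw [Set.mem_Icc] at hj
  refine ⟨j, hj.1, hj.2, 1, le_rfl, ?_⟩
  rw [one_smul, Nat.cast_one, one_mul]
  refine lt_of_le_of_lt h ?_
  rw [div_lt_iff₀ hε] at hK
  rw [div_lt_iff₀ (by positivity)]
  push_cast
  nlinarith

theorem many_good {ε : ℝ} (hε : 0 < ε) :
    ∃ (X₀ : ℕ) (c : ℝ), 0 < c ∧ ∀ (θ : UnitAddCircle) (X : ℕ), X₀ ≤ X →
      c * (X : ℝ) ≤ (Set.ncard {m : ℕ | m ∈ Finset.Icc 2 X ∧ Good ε (m • θ)} : ℝ) := by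
  classical
  obtain ⟨K, hK, H⟩ := mult_dirichlet hε
  have hKr : (0 : ℝ) < K := by exact_mod_cast hK
  refine ⟨4 * K, 1 / (2 * K * K), by positivity, fun θ X hX => ?_⟩
  choose j hj1 hjK hjG using fun m : ℕ => H (m • θ)
  have hset : {m : ℕ | m ∈ Finset.Icc 2 X ∧ Good ε (m • θ)} =
      (((Finset.Icc 2 X).filter fun m => Good ε (m • θ) : Finset ℕ) : Set ℕ) := by
    ext m
    simp only [Set.mem_ofPred_eq, Finset.coe_filter]
  rw [hset, Set.ncard_coe_finset]
  have hmaps : ∀ m ∈ Finset.Icc 2 (X / K), j m * m ∈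
      (Finset.Icc 2 X).filter fun m => Good ε (m • θ) := by
    intro m hm
    rw [Finset.mem_Icc] at hm
    rw [Finset.mem_filter, Finset.mem_Icc]
    refine ⟨⟨?_, ?_⟩, ?_⟩
    · calc 2 ≤ 1 * m := by omega
        _ ≤ j m * m := Nat.mul_le_mul_right m (hj1 m)
    · calc j m * m ≤ K * m := Nat.mul_le_mul_right m (hjK m)
        _ ≤ K * (X / K) := Nat.mul_le_mul_left K hm.2
        _ ≤ X := Nat.mul_div_le X K
    · have := hjG m
      rw [smul_smul] at this
      exact this
  have hfib : ∀ b ∈ (Finset.Icc 2 X).filter fun m => Good ε (m • θ),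
      ((Finset.Icc 2 (X / K)).filter fun m => j m * m = b).card ≤ K := by
    intro b _
    have h1 : ((Finset.Icc 2 (X / K)).filter fun m => j m * m = b).card ≤
        (Finset.Icc 1 K).card := by
      apply Finset.card_le_card_of_injOn j
      · intro m _
        simp only [Finset.coe_Icc, Set.mem_Icc]
        exact ⟨hj1 m, hjK m⟩
      · intro m hm m' hm' e
        simp only [Finset.coe_filter, Set.mem_ofPred_eq] at hm hm'
        have e1 : j m * m = j m * m' := by
          rw [hm.2, e, hm'.2]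
        exact Nat.eq_of_mul_eq_mul_left (hj1 m) e1
    rw [Nat.card_Icc] at h1
    omega
  have hcard := Finset.card_le_mul_card_image_of_maps_to hmaps K hfib
  rw [Nat.card_Icc] at hcard
  have h2 : X / K + 1 - 2 + 1 = X / K := by
    have : 4 ≤ X / K := (Nat.le_div_iff_mul_le hK).2 hX
    omega
  have h3 : X < K * (X / K + 1) := by
    have := Nat.div_add_mod X K
    have := Nat.mod_lt X hK
    rw [Nat.mul_add]
    omega
  have h4 : X < K * (K * ((Finset.Icc 2 X).filter fun m => Good ε (m • θ)).card + 2) := by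
    refine lt_of_lt_of_le h3 (Nat.mul_le_mul_left K ?_)
    omega
  have h5 : (X : ℝ) < K * (K * (((Finset.Icc 2 X).filter fun m => Good ε (m • θ)).card : ℝ) +
      2) := by exact_mod_cast h4
  have h6 : (4 : ℝ) * K ≤ X := by exact_mod_cast hX
  rw [one_div, inv_mul_le_iff₀ (by positivity)]
  nlinarith

end Pool.Agent.H66.ML
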