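import Pool.Agent.H66.ML.BDefs

/-!
The semigroup generated by two multiplicatively independent integers is not lacunary.
-/

namespace Pool.Agent.H66.ML

/-- Two positive numbers with a small positive difference. -/
private theorem NonLac_step {A B u : ℝ} (hB : 0 < B) (hu : 0 < u) (hA : A = B + u) :
    ∃ R₀ : ℝ, ∀ R : ℝ, R₀ ≤ R → ∃ m n : ℕ, R ≤ m * A + n * B ∧ m * A + n * B ≤ R + u := by
  refine ⟨B * (B / u + 1), fun R hR => ?_⟩
  have hR0 : 0 ≤ R := by
    have : 0 < B * (B / u + 1) := by positivity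
    linarith
  obtain ⟨K, hK⟩ : ∃ K : ℕ, K = ⌊R / B⌋₊ := ⟨_, rfl⟩
  have h1 : (K : ℝ) * B ≤ R := by
    have : (K : ℝ) ≤ R / B := by rw [hK]; exact Nat.floor_le (by positivity)
    rwa [le_div_iff₀ hB] at this
  have h2 : R < ((K : ℝ) + 1) * B := by
    have : R / B < (K : ℝ) + 1 := by rw [hK]; exact Nat.lt_floor_add_one _
    rwa [div_lt_iff₀ hB] at this
  have h3 : B / u ≤ K := by
    have h4 : B * (B / u + 1) < ((K : ℝ) + 1) * B := lt_of_le_of_lt hR h2
    have h5 : B / u + 1 < (K : ℝ) + 1 := by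
      rw [mul_comm] at h4
      exact lt_of_mul_lt_mul_right h4 hB.le
    linarith
  have h6 : B ≤ K * u := by rwa [div_le_iff₀ hu] at h3
  obtain ⟨l, hl⟩ : ∃ l : ℕ, l = ⌈(R - K * B) / u⌉₊ := ⟨_, rfl⟩
  have h7 : (R - K * B) / u ≤ l := by rw [hl]; exact Nat.le_ceil _
  have h8 : (l : ℝ) < (R - K * B) / u + 1 := by
    rw [hl]
    exact Nat.ceil_lt_add_one (div_nonneg (by linarith) hu.le)
  have h9 : l ≤ K := by
    rw [hl]
    refine Nat.ceil_le.2 ?_
    rw [div_le_iff₀ hu]
    linarith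
  rw [div_le_iff₀ hu] at h7
  have h10 : (l : ℝ) * u < R - K * B + u := by
    have h11 := mul_lt_mul_of_pos_right h8 hu
    rw [add_mul, div_mul_cancel₀ _ hu.ne', one_mul] at h11
    exact h11
  refine ⟨l, K - l, ?_, ?_⟩
  · rw [Nat.cast_sub h9, hA]
    nlinarith
  · rw [Nat.cast_sub h9, hA]
    nlinarith

/-- The logarithms of the elements of the semigroup generated by `a` and `b` have gaps that tend
to zero. -/
theorem nonlac {a b : ℕ} (h : MInd a b) {δ : ℝ} (hδ : 0 < δ) :
    ∃ R₀ : ℝ, ∀ R : ℝ, R₀ ≤ R → ∃ i j : ℕ, R ≤ i * Real.log a + j * Real.log b ∧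
      i * Real.log a + j * Real.log b ≤ R + δ := by
  obtain ⟨ha, hb, hab⟩ := h
  have hla : 0 < Real.log a := Real.log_pos (by exact_mod_cast ha)
  have hlb : 0 < Real.log b := Real.log_pos (by exact_mod_cast hb)
  obtain ⟨n, hn⟩ := exists_nat_gt (Real.log b / min δ (Real.log a))
  have hm : 0 < min δ (Real.log a) := lt_min hδ hla
  have hn0 : 0 < n := by
    have h1 : (0 : ℝ) < n := lt_trans (by positivity) hn
    exact_mod_cast h1
  rw [div_lt_iff₀ hm] at hn
  obtain ⟨j, k, hk, _, hjk⟩ := Real.exists_int_int_abs_mul_sub_le (Real.log a / Real.log b) hn0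
  have h1 : |(k : ℝ) * Real.log a - j * Real.log b| < min δ (Real.log a) := by
    have h2 : (k : ℝ) * Real.log a - j * Real.log b =
        ((k : ℝ) * (Real.log a / Real.log b) - j) * Real.log b := by
      field_simp
    rw [h2, abs_mul, abs_of_pos hlb]
    have hn1 : (0 : ℝ) < n := by exact_mod_cast hn0
    have h3 : 1 / ((n : ℝ) + 1) * Real.log b < min δ (Real.log a) := by
      rw [div_mul_eq_mul_div, one_mul, div_lt_iff₀ (by positivity)]
      nlinarith
    exact lt_of_le_of_lt (mul_le_mul_of_nonneg_right hjk hlb.le) h3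
  have hkr : (1 : ℝ) ≤ k := by exact_mod_cast hk
  have hj : 0 < j := by
    have h2 := (abs_lt.1 (lt_of_lt_of_le h1 (min_le_right _ _))).2
    have h3 : 0 < (j : ℝ) * Real.log b := by nlinarith
    have h4 : (0 : ℝ) < j := (pos_iff_pos_of_mul_pos h3).2 hlb
    exact_mod_cast h4
  obtain ⟨k', rfl⟩ := Int.eq_ofNat_of_zero_le hk.le
  obtain ⟨j', rfl⟩ := Int.eq_ofNat_of_zero_le hj.le
  have hk' : 0 < k' := by exact_mod_cast hk
  have hj' : 0 < j' := by exact_mod_cast hj
  simp only [Int.cast_natCast] at h1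
  have hne : (k' : ℝ) * Real.log a - j' * Real.log b ≠ 0 := by
    intro h2
    have h3 : (k' : ℝ) * Real.log a = j' * Real.log b := by linarith
    rw [← Real.log_pow, ← Real.log_pow] at h3
    have h4 := Real.log_injOn_pos (Set.mem_Ioi.2 (by positivity)) (Set.mem_Ioi.2 (by positivity)) h3
    exact hab k' j' hk' hj' (by exact_mod_cast h4)
  have h5 := lt_of_lt_of_le h1 (min_le_left _ _)
  rcases lt_or_gt_of_ne hne with h2 | h2
  · rw [abs_of_neg h2] at h5
    obtain ⟨R₀, hR₀⟩ := NonLac_step (A := j' * Real.log b) (B := k' * Real.log a)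
      (u := -(k' * Real.log a - j' * Real.log b)) (by positivity) (by linarith) (by ring)
    refine ⟨R₀, fun R hR => ?_⟩
    obtain ⟨m, l, e1, e2⟩ := hR₀ R hR
    refine ⟨l * k', m * j', ?_, ?_⟩
    · push_cast
      linarith
    · push_cast
      linarith
  · rw [abs_of_pos h2] at h5
    obtain ⟨R₀, hR₀⟩ := NonLac_step (A := k' * Real.log a) (B := j' * Real.log b)
      (u := k' * Real.log a - j' * Real.log b) (by positivity) h2 (by ring)
    refine ⟨R₀, fun R hR => ?_⟩
    obtain ⟨m, l, e1, e2⟩ := hR₀ R hR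
    refine ⟨m * k', l * j', ?_, ?_⟩
    · push_cast
      linarith
    · push_cast
      linarith

end Pool.Agent.H66.ML
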