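import Pool.Agent.H66.ML.BDefs

/-!
A criterion for almost sure success: if from every starting point and every starting time the
random products reach the set `G` within `L` steps with probability at least `p`, then they reach
it almost surely.
-/

namespace Pool.Agent.H66.ML

open MeasureTheory ProbabilityTheory

variable {Ω : Type} [MeasurableSpace Ω] {P : Measure Ω} [IsProbabilityMeasure P]

private theorem prob_indep {d : ℕ → Ω → ℕ} (hm : ∀ k, Measurable (d k)) (hi : iIndepFun d P)
    (n L : ℕ) : IndepFun (fun ω => fun i : Fin n => d i ω) (fun ω => fun i : Fin L => d (n + i) ω)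
      P := by
  have hd : Disjoint (Finset.range n) (Finset.Ico n (n + L)) := by
    rw [Finset.disjoint_left]
    intro x hx hx'
    rw [Finset.mem_range] at hx
    rw [Finset.mem_Ico] at hx'
    omega
  have h := iIndepFun.indepFun_finset (Finset.range n) (Finset.Ico n (n + L)) hd hi hm
  have m1 : Measurable (fun (x : Finset.range n → ℕ) (i : Fin n) =>
      x ⟨i, Finset.mem_range.2 i.2⟩) := measurable_pi_lambda _ fun i => measurable_pi_apply _
  have m2 : Measurable (fun (x : Finset.Ico n (n + L) → ℕ) (i : Fin L) =>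
      x ⟨n + i, Finset.mem_Ico.2 ⟨Nat.le_add_right n i, Nat.add_lt_add_left i.2 n⟩⟩) :=
    measurable_pi_lambda _ fun i => measurable_pi_apply _
  exact h.comp m1 m2

/-- Disjoint blocks: an event on the coordinates `< n` and an event on the coordinates in
`[n, n + L)` that may depend on the first coordinates. -/
theorem block_bound {d : ℕ → Ω → ℕ} (hm : ∀ k, Measurable (d k)) (hi : iIndepFun d P)
    (n L : ℕ) (E : Set (Fin n → ℕ)) (F : (Fin n → ℕ) → Set (Fin L → ℕ)) {c : ℝ} (hc : 0 ≤ c)
    (hF : ∀ u ∈ E, P.real {ω | (fun i : Fin L => d (n + i) ω) ∈ F u} ≤ c) :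
    P.real {ω | (fun i : Fin n => d i ω) ∈ E ∧
      (fun i : Fin L => d (n + i) ω) ∈ F (fun i : Fin n => d i ω)} ≤
      c * P.real {ω | (fun i : Fin n => d i ω) ∈ E} := by
  set U : Ω → (Fin n → ℕ) := fun ω => fun i : Fin n => d i ω with hU
  set V : Ω → (Fin L → ℕ) := fun ω => fun i : Fin L => d (n + i) ω with hV
  have mU : Measurable U := measurable_pi_lambda _ fun i => hm i
  have mV : Measurable V := measurable_pi_lambda _ fun i => hm (n + i)
  have hind : IndepFun U V P := prob_indep hm hi n L
  have h1 : P {ω | U ω ∈ E ∧ V ω ∈ F (U ω)} ≤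
      ∑' u : Fin n → ℕ, ENNReal.ofReal c * E.indicator (fun u => (P.map U) {u}) u := by
    have hsub : {ω | U ω ∈ E ∧ V ω ∈ F (U ω)} ⊆
        ⋃ u : Fin n → ℕ, {ω | U ω = u ∧ u ∈ E ∧ V ω ∈ F u} := by
      intro ω hω
      exact Set.mem_iUnion.2 ⟨U ω, rfl, hω.1, hω.2⟩
    refine (measure_mono hsub).trans ((measure_iUnion_le _).trans (ENNReal.tsum_le_tsum fun u => ?_))
    by_cases hu : u ∈ E
    · rw [Set.indicator_of_mem hu, Measure.map_apply mU (measurableSet_singleton u)]
      have e : {ω | U ω = u ∧ u ∈ E ∧ V ω ∈ F u} = U ⁻¹' {u} ∩ V ⁻¹' (F u) := by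
        ext ω
        simp [hu]
      rw [e, hind.measure_inter_preimage_eq_mul _ _ (measurableSet_singleton u)
        (MeasurableSet.of_discrete), mul_comm]
      refine mul_le_mul_left ?_ _
      have h2 := hF u hu
      rw [Measure.real] at h2
      exact (ENNReal.le_ofReal_iff_toReal_le (measure_ne_top _ _) hc).2 h2
    · have e : {ω | U ω = u ∧ u ∈ E ∧ V ω ∈ F u} = ∅ := by
        ext ω
        simp [hu]
      rw [e, measure_empty]
      exact bot_le
  rw [ENNReal.tsum_mul_left, Measure.tsum_indicator_apply_singleton _ _ (MeasurableSet.of_discrete),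
    Measure.map_apply mU (MeasurableSet.of_discrete)] at h1
  have h3 : (P {ω | U ω ∈ E ∧ V ω ∈ F (U ω)}).toReal ≤
      (ENNReal.ofReal c * P (U ⁻¹' E)).toReal :=
    ENNReal.toReal_mono (ENNReal.mul_ne_top ENNReal.ofReal_ne_top (measure_ne_top _ _)) h1
  rw [ENNReal.toReal_mul, ENNReal.toReal_ofReal hc] at h3
  exact h3

/-- Extension of a finite word. -/
private def probExt {n : ℕ} (u : Fin n → ℕ) (i : ℕ) : ℕ := if h : i < n then u ⟨i, h⟩ else 1

private theorem probExt_prod {n m : ℕ} (hmn : m ≤ n) (f : ℕ → ℕ) :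
    ∏ i ∈ Finset.range m, probExt (fun i : Fin n => f i) i = ∏ i ∈ Finset.range m, f i := by
  refine Finset.prod_congr rfl fun i hi => ?_
  rw [Finset.mem_range] at hi
  unfold probExt
  rw [dif_pos (by omega)]

theorem prob_criterion {d : ℕ → Ω → ℕ} (hm : ∀ k, Measurable (d k)) (hi : iIndepFun d P)
    (G : Set UnitAddCircle) (L : ℕ) {p : ℝ} (hp : 0 < p)
    (hstep : ∀ (k : ℕ) (θ : UnitAddCircle),
      p ≤ P.real {ω | ∃ n ≤ L, (∏ i ∈ Finset.range n, d (k + i) ω) • θ ∈ G})
    (θ : UnitAddCircle) :
    ∀ᵐ ω ∂P, ∃ n, (∏ i ∈ Finset.range n, d i ω) • θ ∈ G := by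
  have hp1 : p ≤ 1 := (hstep 0 θ).trans measureReal_le_one
  -- failure during the first `n` steps, as a set of words
  let E : (n : ℕ) → Set (Fin n → ℕ) := fun n =>
    {u | ∀ m ≤ n, (∏ i ∈ Finset.range m, probExt u i) • θ ∉ G}
  have hE : ∀ n ω, (fun i : Fin n => d i ω) ∈ E n ↔
      ∀ m ≤ n, (∏ i ∈ Finset.range m, d i ω) • θ ∉ G := by
    intro n ω
    constructor
    · intro h m hmn
      have := h m hmn
      rwa [probExt_prod hmn (fun i => d i ω)] at this
    · intro h m hmn
      rw [probExt_prod hmn (fun i => d i ω)]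
      exact h m hmn
  have key : ∀ K : ℕ, P.real {ω | (fun i : Fin (K * L) => d i ω) ∈ E (K * L)} ≤ (1 - p) ^ K := by
    intro K
    induction K with
    | zero => rw [pow_zero]; exact measureReal_le_one
    | succ K ih =>
      let F : (Fin (K * L) → ℕ) → Set (Fin L → ℕ) := fun u =>
        {v | ∀ m ≤ L, (∏ i ∈ Finset.range m, probExt v i) •
          ((∏ i ∈ Finset.range (K * L), probExt u i) • θ) ∉ G}
      have hFb : ∀ u ∈ E (K * L), P.real {ω | (fun i : Fin L => d (K * L + i) ω) ∈ F u} ≤
          1 - p := by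
        intro u _
        have h1 := hstep (K * L) ((∏ i ∈ Finset.range (K * L), probExt u i) • θ)
        have e : {ω | (fun i : Fin L => d (K * L + i) ω) ∈ F u} =
            {ω | ∃ n ≤ L, (∏ i ∈ Finset.range n, d (K * L + i) ω) •
              ((∏ i ∈ Finset.range (K * L), probExt u i) • θ) ∈ G}ᶜ := by
          ext ω
          simp only [Set.mem_setOf_eq, Set.mem_compl_iff, not_exists, not_and]
          constructor
          · intro h m hmn
            have := h m hmn
            rwa [probExt_prod hmn (fun i => d (K * L + i) ω)] at this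
          · intro h m hmn
            rw [probExt_prod hmn (fun i => d (K * L + i) ω)]
            exact h m hmn
        have hmeas : MeasurableSet {ω | ∃ n ≤ L, (∏ i ∈ Finset.range n, d (K * L + i) ω) •
              ((∏ i ∈ Finset.range (K * L), probExt u i) • θ) ∈ G} := by
          have m2 : Measurable (fun ω => fun i : Fin L => d (K * L + i) ω) :=
            measurable_pi_lambda _ fun i => hm (K * L + i)
          have h2 : MeasurableSet {ω | (fun i : Fin L => d (K * L + i) ω) ∈ F u} :=
            m2 (MeasurableSet.of_discrete (s := F u))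
          rw [e] at h2
          exact h2.of_compl
        rw [e, probReal_compl_eq_one_sub hmeas]
        linarith
      have h3 := block_bound hm hi (K * L) L (E (K * L)) F (by linarith : (0 : ℝ) ≤ 1 - p) hFb
      have h4 : {ω | (fun i : Fin ((K + 1) * L) => d i ω) ∈ E ((K + 1) * L)} ⊆
          {ω | (fun i : Fin (K * L) => d i ω) ∈ E (K * L) ∧
            (fun i : Fin L => d (K * L + i) ω) ∈ F (fun i : Fin (K * L) => d i ω)} := by
        intro ω hω
        rw [Set.mem_setOf_eq, hE] at hω
        have e2 : (K + 1) * L = K * L + L := by ring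
        rw [e2] at hω
        refine ⟨(hE _ _).2 fun m hmn => hω m (by omega), ?_⟩
        intro m hmn
        rw [probExt_prod hmn (fun i => d (K * L + i) ω), probExt_prod le_rfl (fun i => d i ω),
          smul_smul, mul_comm, ← Finset.prod_range_add]
        exact hω (K * L + m) (by omega)
      calc P.real {ω | (fun i : Fin ((K + 1) * L) => d i ω) ∈ E ((K + 1) * L)}
          ≤ _ := measureReal_mono h4
        _ ≤ _ := h3
        _ ≤ (1 - p) * (1 - p) ^ K := by
            refine mul_le_mul_of_nonneg_left ih (by linarith)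
        _ = (1 - p) ^ (K + 1) := by ring
  have hzero : P.real {ω | ¬ ∃ n, (∏ i ∈ Finset.range n, d i ω) • θ ∈ G} ≤ 0 := by
    refine ge_of_tendsto' (tendsto_pow_atTop_nhds_zero_of_lt_one (by linarith : (0 : ℝ) ≤ 1 - p)
      (by linarith)) fun K => ?_
    refine (measureReal_mono ?_).trans (key K)
    intro ω hω
    rw [Set.mem_setOf_eq, not_exists] at hω
    rw [Set.mem_setOf_eq, hE]
    exact fun m _ => hω m
  have h5 : P {ω | ¬ ∃ n, (∏ i ∈ Finset.range n, d i ω) • θ ∈ G} = 0 := by
    have h6 := le_antisymm hzero measureReal_nonneg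
    rw [Measure.real, ENNReal.toReal_eq_zero_iff] at h6
    exact h6.resolve_right (measure_ne_top _ _)
  exact h5

end Pool.Agent.H66.ML
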