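import Pool.Agent.H66.ML.Furst

/-!
Uniform steering: words of bounded length in two multiplicatively independent multipliers bring
every point into the set of `ε`-well approximable points.
-/

namespace Pool.Agent.H66.ML

private theorem steer_point {a b : ℕ} (h : MInd a b) {ε : ℝ} (hε : 0 < ε) (θ : UnitAddCircle) :
    ∃ ij : ℕ × ℕ, Good ε ((a ^ ij.1 * b ^ ij.2) • θ) := by
  set S : Set UnitAddCircle := Set.range (fun ij : ℕ × ℕ => (a ^ ij.1 * b ^ ij.2) • θ) with hS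
  have hSa : ∀ x ∈ S, a • x ∈ S := by
    rintro x ⟨ij, rfl⟩
    refine ⟨(ij.1 + 1, ij.2), ?_⟩
    change (a ^ (ij.1 + 1) * b ^ ij.2) • θ = a • ((a ^ ij.1 * b ^ ij.2) • θ)
    rw [← mul_smul]
    congr 1
    ring
  have hSb : ∀ x ∈ S, b • x ∈ S := by
    rintro x ⟨ij, rfl⟩
    refine ⟨(ij.1, ij.2 + 1), ?_⟩
    change (a ^ ij.1 * b ^ (ij.2 + 1)) • θ = b • ((a ^ ij.1 * b ^ ij.2) • θ)
    rw [← mul_smul]
    congr 1
    ring
  obtain ⟨x, hx, hfin⟩ := exists_finite_order h (X := closure S) isClosed_closure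
    (Set.Nonempty.closure ⟨_, ⟨(0, 0), rfl⟩⟩)
    (fun x hx => map_mem_closure (continuous_const_smul a) hx hSa)
    (fun x hx => map_mem_closure (continuous_const_smul b) hx hSb)
  obtain ⟨y, hy, ⟨ij, rfl⟩⟩ := mem_closure_iff.1 hx _ (isOpen_good ε) (good_of_finite_order hε hfin)
  exact ⟨ij, hy⟩

theorem steering {a b : ℕ} (h : MInd a b) {ε : ℝ} (hε : 0 < ε) :
    ∃ L : ℕ, ∀ θ : UnitAddCircle, ∃ w : List ℕ, (∀ d ∈ w, d = a ∨ d = b) ∧ w.length ≤ L ∧
      Good ε (w.prod • θ) := by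
  have hcov : (Set.univ : Set UnitAddCircle) ⊆
      ⋃ ij : ℕ × ℕ, {θ : UnitAddCircle | Good ε ((a ^ ij.1 * b ^ ij.2) • θ)} := by
    intro θ _
    obtain ⟨ij, hij⟩ := steer_point h hε θ
    exact Set.mem_iUnion.2 ⟨ij, hij⟩
  have hopen : ∀ ij : ℕ × ℕ, IsOpen {θ : UnitAddCircle | Good ε ((a ^ ij.1 * b ^ ij.2) • θ)} :=
    fun ij => (isOpen_good ε).preimage (continuous_const_smul (a ^ ij.1 * b ^ ij.2))
  obtain ⟨t, ht⟩ := isCompact_univ.elim_finite_subcover _ hopen hcov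
  refine ⟨∑ ij ∈ t, (ij.1 + ij.2), fun θ => ?_⟩
  obtain ⟨ij, hij⟩ := Set.mem_iUnion.1 (ht (Set.mem_univ θ))
  obtain ⟨hijt, hgood⟩ := Set.mem_iUnion.1 hij
  refine ⟨List.replicate ij.1 a ++ List.replicate ij.2 b, ?_, ?_, ?_⟩
  · intro d hd
    rcases List.mem_append.1 hd with h1 | h1
    · exact Or.inl (List.eq_of_mem_replicate h1)
    · exact Or.inr (List.eq_of_mem_replicate h1)
  · rw [List.length_append, List.length_replicate, List.length_replicate]
    exact Finset.single_le_sum (f := fun ij : ℕ × ℕ => ij.1 + ij.2) (fun _ _ => Nat.zero_le _) hijt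
  · rw [List.prod_append, List.prod_replicate, List.prod_replicate]
    exact hgood

end Pool.Agent.H66.ML
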