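import Pool.Agent.H66.ML.Steer
import Pool.Agent.H66.ML.Prob

/-!
The step condition for multipliers with two atoms at multiplicatively independent integers.
-/

namespace Pool.Agent.H66.ML

open MeasureTheory ProbabilityTheory

variable {Ω : Type} [MeasurableSpace Ω] {P : Measure Ω} [IsProbabilityMeasure P]

/-- The probability of a word. -/
theorem word_prob {d : ℕ → Ω → ℕ} (hm : ∀ k, Measurable (d k)) (hi : iIndepFun d P) {p : ℝ}
    (hp : 0 ≤ p) (k : ℕ) (w : List ℕ) (hw : ∀ i (h : i < w.length), p ≤ P.real {ω | d (k + i) ω = w[i]}) :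
    p ^ w.length ≤ P.real {ω | ∀ i (h : i < w.length), d (k + i) ω = w[i]} := by
  have hi' : iIndepFun (fun i => d (k + i)) P :=
    hi.precomp (g := fun i => k + i) (fun a b h => Nat.add_left_cancel h)
  have h1 := hi'.measure_inter_preimage_eq_mul (Finset.range w.length)
    (sets := fun i => {w.getD i 0}) (fun i _ => measurableSet_singleton _)
  have h2 : {ω | ∀ i (h : i < w.length), d (k + i) ω = w[i]}
      = ⋂ i ∈ Finset.range w.length, (d (k + i)) ⁻¹' {w.getD i 0} := by
    ext ω
    simp only [Set.mem_ofPred_eq, Set.mem_iInter, Finset.mem_range, Set.mem_preimage,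
      Set.mem_singleton_iff]
    constructor
    · intro h i hi
      rw [h i hi, List.getD_eq_getElem _ _ hi]
    · intro h i hi
      rw [h i hi, List.getD_eq_getElem _ _ hi]
  rw [h2, measureReal_def, h1, ENNReal.toReal_prod]
  calc p ^ w.length = ∏ _i ∈ Finset.range w.length, p := by
        rw [Finset.prod_const, Finset.card_range]
    _ ≤ ∏ i ∈ Finset.range w.length, (P ((d (k + i)) ⁻¹' {w.getD i 0})).toReal := by
        refine Finset.prod_le_prod (fun _ _ => hp) fun i hi => ?_
        have hi'' := Finset.mem_range.1 hi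
        have h3 := hw i hi''
        rw [List.getD_eq_getElem _ _ hi'']
        exact h3

/-- Local form: only the coordinates `k, …, k + L - 1` are restricted. -/
theorem step_atoms_local {a b : ℕ} {ε : ℝ} {L : ℕ}
    (hL : ∀ θ : UnitAddCircle, ∃ w : List ℕ, (∀ d ∈ w, d = a ∨ d = b) ∧ w.length ≤ L ∧
      Good ε (w.prod • θ))
    {d : ℕ → Ω → ℕ} (hm : ∀ k, Measurable (d k)) (hi : iIndepFun d P) {p : ℝ} (hp : 0 < p)
    (hp1 : p ≤ 1) (k : ℕ) (ha : ∀ i < L, p ≤ P.real {ω | d (k + i) ω = a})
    (hb : ∀ i < L, p ≤ P.real {ω | d (k + i) ω = b}) (θ : UnitAddCircle) :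
    p ^ L ≤ P.real {ω | ∃ n ≤ L, (∏ i ∈ Finset.range n, d (k + i) ω) • θ ∈
      {θ : UnitAddCircle | Good ε θ}} := by
  obtain ⟨w, hw, hlen, hgood⟩ := hL θ
  have h1 : p ^ L ≤ p ^ w.length := pow_le_pow_of_le_one hp.le hp1 hlen
  have h2 := word_prob hm hi hp.le k w (fun i h => by
    rcases hw w[i] (List.getElem_mem h) with e | e
    · rw [e]
      exact ha i (lt_of_lt_of_le h hlen)
    · rw [e]
      exact hb i (lt_of_lt_of_le h hlen))
  refine h1.trans (h2.trans ?_)
  refine measureReal_mono ?_ (measure_ne_top _ _)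
  intro ω hω
  refine ⟨w.length, hlen, ?_⟩
  have h3 : ∏ i ∈ Finset.range w.length, d (k + i) ω = w.prod := by
    rw [Finset.prod_range]
    have h4 : ∀ i : Fin w.length, d (k + (i : ℕ)) ω = w[(i : ℕ)] := fun i => hω i.1 i.2
    rw [Finset.prod_congr rfl fun i _ => h4 i, ← List.prod_ofFn, List.ofFn_getElem]
  rw [h3]
  exact hgood

end Pool.Agent.H66.ML
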