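import Pool.Agent.H66.ML.Mult
import Pool.Agent.H66.ML.StepA

/-!
The step condition for multipliers that are uniformly distributed on `{2, …, X k}`.
-/

namespace Pool.Agent.H66.ML

open MeasureTheory ProbabilityTheory

variable {Ω : Type} [MeasurableSpace Ω] {P : Measure Ω} [IsProbabilityMeasure P]

/-- The probability that the next multiplier leads to a good point. -/
theorem StepU_one {ε : ℝ} {X₀ : ℕ} {c : ℝ} (hc : 0 < c)
    (hX₀ : ∀ (θ : UnitAddCircle) (X : ℕ), X₀ ≤ X →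
      c * (X : ℝ) ≤ (Set.ncard {m : ℕ | m ∈ Finset.Icc 2 X ∧ Good ε (m • θ)} : ℝ))
    {f : Ω → ℕ} (hm : Measurable f) (X : ℕ) (hX : 3 ≤ X) (hXX : X₀ ≤ X)
    (hu : ∀ m ∈ Finset.Icc 2 X, P.real {ω | f ω = m} = 1 / ((X : ℝ) - 1)) (θ : UnitAddCircle) :
    c ≤ P.real {ω | Good ε (f ω • θ)} := by
  classical
  set S : Finset ℕ := (Finset.Icc 2 X).filter (fun m => Good ε (m • θ)) with hS
  have hcard : (Set.ncard {m : ℕ | m ∈ Finset.Icc 2 X ∧ Good ε (m • θ)}) = S.card := by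
    rw [← Set.ncard_coe_finset]
    congr 1
    ext m
    simp [hS]
  have h1 := hX₀ θ X hXX
  rw [hcard] at h1
  have hX1 : (0 : ℝ) < (X : ℝ) - 1 := by
    have : (3 : ℝ) ≤ X := by exact_mod_cast hX
    linarith
  have hsum : P.real (⋃ m ∈ S, {ω | f ω = m}) = ∑ m ∈ S, P.real {ω | f ω = m} := by
    refine measureReal_biUnion_finset ?_ (fun m _ => hm (measurableSet_singleton m))
    intro a _ b _ hab
    refine Set.disjoint_left.2 (fun ω ha hb => hab ?_)
    rw [← (show f ω = a from ha), ← (show f ω = b from hb)]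
  have hval : ∑ m ∈ S, P.real {ω | f ω = m} = (S.card : ℝ) * (1 / ((X : ℝ) - 1)) := by
    rw [Finset.sum_congr rfl (fun m hmS => hu m (Finset.mem_filter.1 hmS).1), Finset.sum_const,
      nsmul_eq_mul]
  have hle : P.real (⋃ m ∈ S, {ω | f ω = m}) ≤ P.real {ω | Good ε (f ω • θ)} := by
    refine measureReal_mono (fun ω hω => ?_)
    simp only [Set.mem_iUnion] at hω
    obtain ⟨m, hmS, hmω⟩ := hω
    have h2 : f ω = m := hmω
    have h3 := (Finset.mem_filter.1 hmS).2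
    rw [← h2] at h3
    exact h3
  rw [hsum, hval] at hle
  refine le_trans ?_ hle
  rw [mul_one_div, le_div_iff₀ hX1]
  nlinarith

/-- One large range is enough. -/
theorem step_large {ε : ℝ} {X₀ : ℕ} {c : ℝ} (hc : 0 < c)
    (hX₀ : ∀ (θ : UnitAddCircle) (X : ℕ), X₀ ≤ X →
      c * (X : ℝ) ≤ (Set.ncard {m : ℕ | m ∈ Finset.Icc 2 X ∧ Good ε (m • θ)} : ℝ))
    {d : ℕ → Ω → ℕ} (hm : ∀ k, Measurable (d k)) (hi : iIndepFun d P) (X : ℕ → ℕ)
    (hX : ∀ k, 3 ≤ X k)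
    (hu : ∀ k, ∀ m ∈ Finset.Icc 2 (X k), P.real {ω | d k ω = m} = 1 / ((X k : ℝ) - 1))
    (k L j : ℕ) (hj : j < L) (hjX : X₀ ≤ X (k + j)) (θ : UnitAddCircle) :
    c ≤ P.real {ω | ∃ n ≤ L, (∏ i ∈ Finset.range n, d (k + i) ω) • θ ∈
      {θ : UnitAddCircle | Good ε θ}} := by
  have hi' : iIndepFun (fun i => d (k + i)) P := hi.precomp (add_right_injective k)
  have hone : ∀ θ' : UnitAddCircle, c ≤ P.real {ω | Good ε (d (k + j) ω • θ')} := fun θ' =>
    StepU_one hc hX₀ (hm (k + j)) (X (k + j)) (hX (k + j)) hjX (hu (k + j)) θ'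
  have hbad : ∀ θ' : UnitAddCircle, P.real {ω | ¬ Good ε (d (k + j) ω • θ')} ≤ 1 - c := by
    intro θ'
    have hmeas : MeasurableSet {ω | Good ε (d (k + j) ω • θ')} := by
      have e : {ω | Good ε (d (k + j) ω • θ')} = (d (k + j)) ⁻¹' {m : ℕ | Good ε (m • θ')} := rfl
      rw [e]
      exact hm (k + j) (MeasurableSet.of_discrete)
    have e : {ω | ¬ Good ε (d (k + j) ω • θ')} = {ω | Good ε (d (k + j) ω • θ')}ᶜ := rfl
    rw [e, probReal_compl_eq_one_sub hmeas]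
    linarith [hone θ']
  have hc1 : 0 ≤ 1 - c := by
    have h1 := hbad 0
    exact measureReal_nonneg.trans h1
  have hblock := block_bound (P := P) (d := fun i => d (k + i)) (fun i => hm (k + i)) hi' j 1
    Set.univ (fun u => {v : Fin 1 → ℕ | ¬ Good ε ((v 0) • ((∏ i, u i) • θ))}) hc1
    (fun u _ => by
      have h1 := hbad ((∏ i, u i) • θ)
      exact h1)
  have hB : P.real {ω | (fun i : Fin j => d (k + i) ω) ∈ (Set.univ : Set (Fin j → ℕ)) ∧
      (fun i : Fin 1 => d (k + (j + i)) ω) ∈ {v : Fin 1 → ℕ |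
        ¬ Good ε ((v 0) • ((∏ i : Fin j, d (k + i) ω) • θ))}} ≤ 1 - c := by
    refine hblock.trans ?_
    calc (1 - c) * P.real {ω | (fun i : Fin j => d (k + i) ω) ∈ (Set.univ : Set (Fin j → ℕ))}
        ≤ (1 - c) * 1 := mul_le_mul_of_nonneg_left measureReal_le_one hc1
      _ = 1 - c := mul_one _
  set A : Set Ω := {ω | ∃ n ≤ L, (∏ i ∈ Finset.range n, d (k + i) ω) • θ ∈
      {θ : UnitAddCircle | Good ε θ}} with hA
  set B : Set Ω := {ω | (fun i : Fin j => d (k + i) ω) ∈ (Set.univ : Set (Fin j → ℕ)) ∧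
      (fun i : Fin 1 => d (k + (j + i)) ω) ∈ {v : Fin 1 → ℕ |
        ¬ Good ε ((v 0) • ((∏ i : Fin j, d (k + i) ω) • θ))}} with hBdef
  have hcover : (Set.univ : Set Ω) ⊆ A ∪ B := by
    intro ω _
    by_cases hω : ω ∈ A
    · exact Or.inl hω
    · right
      refine ⟨Set.mem_univ _, ?_⟩
      intro hgood
      apply hω
      refine ⟨j + 1, hj, ?_⟩
      have e : (∏ i ∈ Finset.range (j + 1), d (k + i) ω) • θ =
          d (k + (j + (0 : Fin 1))) ω • ((∏ i : Fin j, d (k + i) ω) • θ) := by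
        rw [Finset.prod_range_succ, mul_comm, mul_smul, Finset.prod_range]
        rfl
      change Good ε ((∏ i ∈ Finset.range (j + 1), d (k + i) ω) • θ)
      rw [e]
      exact hgood
  have h1 : (1 : ℝ) ≤ P.real A + P.real B := by
    calc (1 : ℝ) = P.real Set.univ := probReal_univ.symm
      _ ≤ P.real (A ∪ B) := measureReal_mono hcover
      _ ≤ P.real A + P.real B := measureReal_union_le A B
  linarith

theorem step_unif {ε : ℝ} (hε : 0 < ε) {d : ℕ → Ω → ℕ} (hm : ∀ k, Measurable (d k))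
    (hi : iIndepFun d P) (X : ℕ → ℕ) (hX : ∀ k, 3 ≤ X k)
    (hu : ∀ k, ∀ m ∈ Finset.Icc 2 (X k), P.real {ω | d k ω = m} = 1 / ((X k : ℝ) - 1)) :
    ∃ (L : ℕ) (p : ℝ), 0 < p ∧ ∀ (k : ℕ) (θ : UnitAddCircle),
      p ≤ P.real {ω | ∃ n ≤ L, (∏ i ∈ Finset.range n, d (k + i) ω) • θ ∈
        {θ : UnitAddCircle | Good ε θ}} := by
  obtain ⟨X₀, c, hc, hX₀⟩ := many_good hε
  obtain ⟨L, hL⟩ := steering mInd_two_three hε
  have hX1pos : (0 : ℝ) < ((max X₀ 3 : ℕ) : ℝ) := by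
    have h1 : 3 ≤ max X₀ 3 := le_max_right _ _
    have h2 : (3 : ℝ) ≤ ((max X₀ 3 : ℕ) : ℝ) := by exact_mod_cast h1
    linarith
  have hX1one : (1 : ℝ) ≤ ((max X₀ 3 : ℕ) : ℝ) := by
    have h1 : 3 ≤ max X₀ 3 := le_max_right _ _
    have h2 : (3 : ℝ) ≤ ((max X₀ 3 : ℕ) : ℝ) := by exact_mod_cast h1
    linarith
  set p₀ : ℝ := 1 / ((max X₀ 3 : ℕ) : ℝ) with hp₀
  have hp₀pos : 0 < p₀ := by
    rw [hp₀]
    exact one_div_pos.2 hX1pos
  have hp₀1 : p₀ ≤ 1 := by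
    rw [hp₀, div_le_one hX1pos]
    exact hX1one
  refine ⟨L, min c (p₀ ^ L), lt_min hc (pow_pos hp₀pos L), fun k θ => ?_⟩
  by_cases hcase : ∃ j < L, X₀ ≤ X (k + j)
  · obtain ⟨j, hj, hjX⟩ := hcase
    exact (min_le_left _ _).trans (step_large hc hX₀ hm hi X hX hu k L j hj hjX θ)
  · have hsmall : ∀ i < L, X (k + i) ≤ max X₀ 3 := by
      intro i hiL
      by_contra hcon
      apply hcase
      refine ⟨i, hiL, ?_⟩
      have h1 : X₀ ≤ max X₀ 3 := le_max_left _ _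
      omega
    have hatom : ∀ i < L, ∀ m ∈ Finset.Icc 2 (X (k + i)), p₀ ≤ P.real {ω | d (k + i) ω = m} := by
      intro i hiL m hmI
      rw [hu (k + i) m hmI, hp₀]
      have h3 : (3 : ℝ) ≤ (X (k + i) : ℝ) := by exact_mod_cast hX (k + i)
      have h4 : (X (k + i) : ℝ) ≤ ((max X₀ 3 : ℕ) : ℝ) := by exact_mod_cast hsmall i hiL
      exact one_div_le_one_div_of_le (by linarith) (by linarith)
    refine (min_le_right _ _).trans (step_atoms_local hL hm hi hp₀pos hp₀1 k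
      (fun i hiL => hatom i hiL 2 ?_) (fun i hiL => hatom i hiL 3 ?_) θ)
    · rw [Finset.mem_Icc]
      have := hX (k + i)
      omega
    · rw [Finset.mem_Icc]
      have := hX (k + i)
      omega

end Pool.Agent.H66.ML
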